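import Pool.Agent.H648.Q.Defs
import Pool.Graph.R_seed8.W78.GA.Basic

/-!
# Project Q648, job NEAR (helper685): many pairs of small determinant and different sign
-/

set_option autoImplicit false

namespace Pool.Agent.H685.Q648

open Finset
open Pool.Agent.H376R2.MR (FK Fj lam)
open Pool.Agent.W78.GA
open Pool.Agent.H648.Q

/-- the final inequality -/
theorem near_ineq {c₀ C T Y K N₁ N₂ F₁ F₂ S : ℝ} (hc : 0 < c₀) (hC : 0 < C)
    (hT : T = 16 * Real.exp 1 ^ 4 * C / c₀ ^ 2 + 1) (hY : 0 < Y) (hK : 0 < K) (hKY : K ≤ Y)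
    (hN₁ : 0 ≤ N₁) (hN₂ : 0 ≤ N₂)
    (hF₁ : F₁ ≤ K * N₁ + C * ((Real.exp 1 * Y) ^ 2 / T + Real.exp 1 * Y * K / T ^ 2))
    (hF₂ : F₂ ≤ K * N₂ + C * ((Real.exp 1 * Y) ^ 2 / T + Real.exp 1 * Y * K / T ^ 2))
    (hS : S ≤ c₀ ^ 2 / 4)
    (hmain : c₀ ^ 2 ≤ (Real.exp 1 / Y) ^ 2 * (F₁ + F₂) + S) :
    c₀ ^ 2 * Y / (2 * Real.exp 1 ^ 2) ≤ N₁ + N₂ := by
  have he : 1 ≤ Real.exp 1 := Real.one_le_exp (by norm_num)
  obtain ⟨E, hE⟩ : ∃ E : ℝ, E = Real.exp 1 := ⟨_, rfl⟩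
  rw [← hE] at hT hF₁ hF₂ hmain he ⊢
  have hE0 : 0 < E := by linarith
  have hT1 : 1 ≤ T := by
    rw [hT]
    have : 0 ≤ 16 * E ^ 4 * C / c₀ ^ 2 := by positivity
    linarith
  have hT0 : 0 < T := by linarith
  have h1 : (E / Y) ^ 2 * (F₁ + F₂) ≤ (E / Y) ^ 2 * (K * (N₁ + N₂)) +
      2 * C * (E ^ 4 / T + E ^ 3 * (K / Y) / T ^ 2) := by
    have h2 : (E / Y) ^ 2 * (F₁ + F₂) ≤ (E / Y) ^ 2 * (K * (N₁ + N₂) +
        2 * (C * ((E * Y) ^ 2 / T + E * Y * K / T ^ 2))) :=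
      mul_le_mul_of_nonneg_left (by linarith) (by positivity)
    refine h2.trans (le_of_eq ?_)
    field_simp
  have h3 : E ^ 4 / T + E ^ 3 * (K / Y) / T ^ 2 ≤ 2 * (E ^ 4 / T) := by
    have h4 : E ^ 3 * (K / Y) / T ^ 2 ≤ E ^ 4 / T := by
      rw [div_le_div_iff₀ (by positivity) hT0]
      have h5 : K / Y ≤ 1 := (div_le_one hY).2 hKY
      have h6 : E ^ 3 * (K / Y) ≤ E ^ 4 := by
        calc E ^ 3 * (K / Y) ≤ E ^ 3 * 1 := mul_le_mul_of_nonneg_left h5 (by positivity)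
          _ ≤ E ^ 3 * E := mul_le_mul_of_nonneg_left he (by positivity)
          _ = E ^ 4 := by ring
      have h7 : T ≤ T ^ 2 := by nlinarith
      exact mul_le_mul h6 h7 hT0.le (by positivity)
    linarith
  have h4 : 2 * C * (E ^ 4 / T + E ^ 3 * (K / Y) / T ^ 2) ≤ c₀ ^ 2 / 4 := by
    have h5 : 2 * C * (E ^ 4 / T + E ^ 3 * (K / Y) / T ^ 2) ≤ 2 * C * (2 * (E ^ 4 / T)) :=
      mul_le_mul_of_nonneg_left h3 (by positivity)
    refine h5.trans ?_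
    have h6 : 2 * C * (2 * (E ^ 4 / T)) = 4 * C * E ^ 4 / T := by ring
    rw [h6, div_le_div_iff₀ hT0 (by norm_num)]
    have h7 : c₀ ^ 2 * T = 16 * E ^ 4 * C + c₀ ^ 2 := by
      rw [hT]
      field_simp
    nlinarith [sq_nonneg c₀]
  have h5 : (E / Y) ^ 2 * (K * (N₁ + N₂)) ≤ E ^ 2 / Y * (N₁ + N₂) := by
    have h6 : (E / Y) ^ 2 * (K * (N₁ + N₂)) = E ^ 2 / Y * (N₁ + N₂) * (K / Y) := by
      field_simp
    rw [h6]
    have h7 : K / Y ≤ 1 := (div_le_one hY).2 hKY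
    have h8 : 0 ≤ E ^ 2 / Y * (N₁ + N₂) := by positivity
    nlinarith
  have h6 : c₀ ^ 2 / 2 ≤ E ^ 2 / Y * (N₁ + N₂) := by linarith
  rw [div_mul_eq_mul_div, le_div_iff₀ hY] at h6
  rw [div_le_iff₀ (by positivity)]
  linarith

theorem UU_mono {b m : ℤ} {L e : ℕ} (hD : (b * (L : ℤ)) ^ 2 < 4 * (m * (L : ℤ) ^ 2))
    {X X' : ℝ} (h : X ≤ X') : UU b m L e X ⊆ UU b m L e X' := by
  intro z hz
  unfold UU at hz ⊢
  rw [mem_filter, mem_pball hD] at hz ⊢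
  exact ⟨⟨hz.1.1, hz.1.2.trans h⟩, hz.2⟩

theorem NPr_mono {g : ℕ → ℤ} {b m : ℤ} {L e : ℕ}
    (hD : (b * (L : ℤ)) ^ 2 < 4 * (m * (L : ℤ) ^ 2)) (u : Qd (b * L) (m * L ^ 2)) (B : ℕ)
    {X X' : ℝ} (h : X ≤ X') : NPr g b m L e u B X ⊆ NPr g b m L e u B X' := by
  classical
  intro p hp
  unfold NPr at hp ⊢
  rw [mem_filter, mem_product] at hp ⊢
  exact ⟨⟨UU_mono hD h hp.1.1, UU_mono hD h hp.1.2⟩, hp.2⟩

/-- B4: many pairs of small determinant and different sign -/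
theorem near_of {g : ℕ → ℤ} {b m : ℤ} (h0 : S_WIN b m) (h1 : S_TIN g b m) (h2 : S_FAR g b m)
    (h3 : S_ANG g b m) (hD : b ^ 2 < 4 * m) : S_NEAR g b m := by
  intro L e u₀ hL he hmr hu₀ hgu
  have hD' : (b * (L : ℤ)) ^ 2 < 4 * (m * (L : ℤ) ^ 2) := by
    have h1 : (0 : ℤ) < (L : ℤ) ^ 2 := by positivity
    calc (b * (L : ℤ)) ^ 2 = b ^ 2 * (L : ℤ) ^ 2 := by ring
      _ < 4 * m * (L : ℤ) ^ 2 := mul_lt_mul_of_pos_right hD h1
      _ = 4 * (m * (L : ℤ) ^ 2) := by ring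
  obtain ⟨c₀, hc₀, C₀, hC₀, Yw, hwin⟩ := h0 L e hL he
  obtain ⟨C, hC, hfar⟩ := h2 L hL
  obtain ⟨h, hh, Y₁, hmr⟩ := hmr (c₀ ^ 2 / 4) (by positivity)
  obtain ⟨T, hT⟩ : ∃ T : ℝ, T = 16 * Real.exp 1 ^ 4 * C / c₀ ^ 2 + 1 := ⟨_, rfl⟩
  have hE1 : 1 ≤ Real.exp 1 := Real.one_le_exp (by norm_num)
  have hE0 : 0 < Real.exp 1 := Real.exp_pos 1
  have hT1 : 1 ≤ T := by
    rw [hT]
    have : 0 ≤ 16 * Real.exp 1 ^ 4 * C / c₀ ^ 2 := by positivity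
    linarith
  have hh0 : 0 < h := by linarith
  have hC₀0 : 0 < C₀ := by linarith
  obtain ⟨U, hU⟩ : ∃ U : ℝ, U = max 1 (nm u₀ : ℝ) := ⟨_, rfl⟩
  have hU1 : 1 ≤ U := by rw [hU]; exact le_max_left _ _
  have hU2 : (nm u₀ : ℝ) ≤ U := by rw [hU]; exact le_max_right _ _
  obtain ⟨B, hB⟩ : ∃ B : ℕ, 4 * Real.exp 1 * Real.sqrt U * h * T ≤ B := exists_nat_ge _
  refine ⟨B, c₀ ^ 2 / (2 * Real.exp 1 ^ 2 * (Real.exp 1 * C₀ ^ 2)), by positivity,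
    Real.exp 1 * C₀ ^ 2 * (|Yw| + |Y₁| + 4 * h * T), ?_⟩
  intro X hX
  have hhT : 1 ≤ h * T := one_le_mul_of_one_le_of_one_le hh hT1
  have hM : 4 ≤ |Yw| + |Y₁| + 4 * h * T := by
    have := abs_nonneg Yw
    have := abs_nonneg Y₁
    linarith
  have hEC : 0 < Real.exp 1 * C₀ ^ 2 := by positivity
  have hX0 : 0 < X := lt_of_lt_of_le (mul_pos hEC (by linarith)) hX
  -- the scale
  have hYw : Yw ≤ X / (Real.exp 1 * C₀) := by
    rw [le_div_iff₀ (by positivity)]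
    have h4 : Yw * (Real.exp 1 * C₀) ≤ (|Yw| + |Y₁| + 4 * h * T) * (Real.exp 1 * C₀ ^ 2) := by
      have h5 : Yw ≤ |Yw| + |Y₁| + 4 * h * T := by
        have := le_abs_self Yw
        have := abs_nonneg Y₁
        linarith
      have h6 : Real.exp 1 * C₀ ≤ Real.exp 1 * C₀ ^ 2 :=
        mul_le_mul_of_nonneg_left (by nlinarith) hE0.le
      exact mul_le_mul h5 h6 (by positivity) (by linarith)
    linarith
  obtain ⟨Y, hY1, hY2, hY3⟩ := hwin _ hYw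
  have hYX : Real.exp 1 * Y ≤ X := by
    have h4 : C₀ * (X / (Real.exp 1 * C₀)) = X / Real.exp 1 := by
      field_simp
    rw [h4, le_div_iff₀ hE0] at hY2
    linarith
  have hXY : X / (Real.exp 1 * C₀ ^ 2) ≤ Y := by
    refine le_trans (le_of_eq ?_) hY1
    field_simp
  have hYM : |Yw| + |Y₁| + 4 * h * T ≤ Y := by
    refine le_trans ?_ hXY
    rw [le_div_iff₀ hEC]
    linarith
  have hY₁ : Y₁ ≤ Y := by
    have := le_abs_self Y₁
    have := abs_nonneg Yw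
    linarith
  have hY4 : 4 * h * T ≤ Y := by
    have := abs_nonneg Y₁
    have := abs_nonneg Yw
    linarith
  have hY0 : 0 < Y := by linarith
  obtain ⟨K, hK⟩ : ∃ K : ℕ, K = ⌊Y / h⌋₊ := ⟨_, rfl⟩
  have hYh : 4 * T ≤ Y / h := by
    rw [le_div_iff₀ hh0]; linarith
  have hK1 : (K : ℝ) ≤ Y / h := by rw [hK]; exact Nat.floor_le (by positivity)
  have hK2 : Y / h - 1 < K := by rw [hK]; exact Nat.sub_one_lt_floor _
  have hK3 : Y / (2 * h) ≤ K := by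
    have h4 : Y / (2 * h) = (Y / h) / 2 := by field_simp
    rw [h4]
    linarith
  have hK4 : 2 * T ≤ K := by linarith
  have hK0 : (0 : ℝ) < K := by linarith
  have hKn : 1 ≤ K := by exact_mod_cast hK0
  have hKY : (K : ℝ) ≤ Y := hK1.trans (div_le_self hY0.le hh)
  have hX1 : 1 ≤ Real.exp 1 * Y := by nlinarith
  have hTK : T / K ≤ 1 / 2 := by
    rw [div_le_div_iff₀ hK0 (by norm_num)]
    linarith
  have hTK0 : 0 ≤ T / K := by positivity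
  have hTK2 : Y * (T / K) ≤ 2 * h * T := by
    rw [mul_div_assoc', div_le_iff₀ hK0]
    rw [div_le_iff₀ (by positivity)] at hK3
    nlinarith
  -- the pairs
  have hN : ∀ u : Qd (b * L) (m * L ^ 2), u ≠ 0 → (nm u : ℝ) ≤ U →
      ((AP g b m L e u (T / K) (Real.exp 1 * Y)).card : ℝ) ≤
        ((NPr g b m L e u B X).card : ℝ) := by
    intro u hu huU
    have h4 : AP g b m L e u (T / K) (Real.exp 1 * Y) ⊆ NPr g b m L e u B (Real.exp 1 * Y) := by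
      refine h3 L e hL u B _ _ hX1 hTK0 hTK hu ?_
      refine le_trans ?_ hB
      have h5 : Real.sqrt (nm u) ≤ Real.sqrt U := Real.sqrt_le_sqrt huU
      calc 2 * (Real.exp 1 * Y) * Real.sqrt (nm u) * (T / K) =
          2 * Real.exp 1 * Real.sqrt (nm u) * (Y * (T / K)) := by ring
        _ ≤ 2 * Real.exp 1 * Real.sqrt U * (2 * h * T) := by
          refine mul_le_mul ?_ hTK2 (by positivity) (by positivity)
          exact mul_le_mul_of_nonneg_left h5 (by positivity)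
        _ = 4 * Real.exp 1 * Real.sqrt U * h * T := by ring
    exact_mod_cast card_le_card (h4.trans (NPr_mono hD' u B hYX))
  have hone : (1 : Qd (b * L) (m * L ^ 2)) ≠ 0 := by
    rw [← one_le_nm hD', nm_one]
  have hN1 := hN 1 hone (by rw [nm_one]; exact_mod_cast hU1)
  have hN2 := hN u₀ hu₀ hU2
  have hF1 := hfar e (Real.exp 1 * Y) T K 1 hX1 hT1 hKn hK4 hone
  have hF2 := hfar e (Real.exp 1 * Y) T K u₀ hX1 hT1 hKn hK4 hu₀
  have hG := hmr Y hY₁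
  rw [← hK] at hG
  have hmain := h1 L e u₀ hL hu₀ hgu Y K hY0 hKn
  have hmain2 := (pow_le_pow_left₀ hc₀.le hY3 2).trans hmain
  have hfin := near_ineq hc₀ hC hT hY0 hK0 hKY
    (Nat.cast_nonneg (AP g b m L e 1 (T / K) (Real.exp 1 * Y)).card)
    (Nat.cast_nonneg (AP g b m L e u₀ (T / K) (Real.exp 1 * Y)).card) hF1 hF2 hG hmain2
  refine le_trans ?_ (hfin.trans (add_le_add hN1 hN2))
  have h5 : c₀ ^ 2 / (2 * Real.exp 1 ^ 2 * (Real.exp 1 * C₀ ^ 2)) * X =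
      c₀ ^ 2 * (X / (Real.exp 1 * C₀ ^ 2)) / (2 * Real.exp 1 ^ 2) := by
    field_simp
  rw [h5]
  refine div_le_div_of_nonneg_right ?_ (by positivity)
  exact mul_le_mul_of_nonneg_left hXY (by positivity)

end Pool.Agent.H685.Q648
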