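import Pool.Agent.H648.Q.Defs
import Pool.Graph.R_seed8.W240.GA.A0
import Pool.Graph.R_seed8.W45.GA.Lat

/-!
# Project Q648, job WIN (helper685): a scale at which the restricted main term is not small
-/

set_option autoImplicit false

namespace Pool.Agent.H685.Q648

open Finset
open Pool.Agent.W78.GA
open Pool.Agent.H376R2.MR (w)
open Pool.Agent.H648.Q (UU S_WIN)

theorem exists_cop {x y : ℤ} (h : Int.gcd x y = 1) {e : ℕ} (he : 1 ≤ e) :
    ∃ i ∈ range (e + 1), Int.gcd (x + i * y) e = 1 := by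
  classical
  obtain ⟨P, hP⟩ : ∃ P, P = e.primeFactors.filter (fun q : ℕ => ¬ (q : ℤ) ∣ x) := ⟨_, rfl⟩
  refine ⟨∏ q ∈ P, q, ?_, ?_⟩
  · rw [mem_range, Nat.lt_succ_iff]
    have h1 : ∏ q ∈ P, q ∣ ∏ q ∈ e.primeFactors, q := by
      rw [hP]
      exact prod_dvd_prod_of_subset _ _ _ (filter_subset _ _)
    exact Nat.le_of_dvd he (h1.trans (Nat.prod_primeFactors_dvd e))
  · by_contra hne
    obtain ⟨q, hq, hqd⟩ := Nat.exists_prime_and_dvd hne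
    have h1 : (q : ℤ) ∣ x + ((∏ q ∈ P, q : ℕ) : ℤ) * y :=
      (Int.natCast_dvd_natCast.2 hqd).trans (Int.gcd_dvd_left _ _)
    have h2 : q ∣ e := Int.natCast_dvd_natCast.1
      ((Int.natCast_dvd_natCast.2 hqd).trans (Int.gcd_dvd_right _ _))
    by_cases hx : (q : ℤ) ∣ x
    · have h3 : (q : ℤ) ∣ ((∏ q ∈ P, q : ℕ) : ℤ) * y := (dvd_add_right hx).1 h1
      rcases (Nat.prime_iff_prime_int.1 hq).dvd_or_dvd h3 with h4 | h4
      · have h5 : q ∣ ∏ q ∈ P, q := Int.natCast_dvd_natCast.1 h4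
        obtain ⟨p, hp, hqp⟩ := (Nat.Prime.prime hq).exists_mem_finset_dvd h5
        rw [hP, mem_filter] at hp
        have h6 : q = p :=
          (Nat.prime_dvd_prime_iff_eq hq (Nat.prime_of_mem_primeFactors hp.1)).1 hqp
        subst h6
        exact hp.2 hx
      · have h6 : q ∣ Int.gcd x y := Nat.dvd_gcd (Int.natCast_dvd.1 hx) (Int.natCast_dvd.1 h4)
        rw [h] at h6
        exact hq.one_lt.ne' (Nat.dvd_one.1 h6)
    · have h3 : q ∣ ∏ q ∈ P, q := by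
        refine dvd_prod_of_mem (fun q : ℕ => q) ?_
        rw [hP, mem_filter]
        exact ⟨Nat.mem_primeFactors.2 ⟨hq, h2, by omega⟩, hx⟩
      apply hx
      have h4 : (q : ℤ) ∣ ((∏ q ∈ P, q : ℕ) : ℤ) * y := (Int.natCast_dvd_natCast.2 h3).mul_right y
      exact (dvd_add_left h4).1 h1

variable {t c : ℤ}

/-- the shear -/
def sh (i : ℤ) (z : Qd t c) : Qd t c := ⟨z.re + i * z.im, z.im⟩

theorem sh_inj (i : ℤ) : Function.Injective (sh (t := t) (c := c) i) := by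
  intro z z' h
  have h1 : (sh i z).im = (sh i z').im := by rw [h]
  have h2 : (sh i z).re = (sh i z').re := by rw [h]
  change z.im = z'.im at h1
  change z.re + i * z.im = z'.re + i * z'.im at h2
  rw [h1] at h2
  exact QuadraticAlgebra.ext (add_right_cancel h2) h1

theorem sh_sh (i : ℤ) (z : Qd t c) : sh (-i) (sh i z) = z := by
  apply QuadraticAlgebra.ext
  · show z.re + i * z.im + -i * z.im = z.re
    ring
  · rfl

theorem prim_sh {i : ℤ} {z : Qd t c} (h : prim z) : prim (sh i z) := by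
  have h1 : Int.gcd z.re z.im = 1 := h
  show Int.gcd (z.re + i * z.im) z.im = 1
  rw [Int.gcd_add_mul_right_left]
  exact h1

theorem nm_sh (hD : t ^ 2 < 4 * c) {e : ℕ} {i : ℤ} (hi : |(i : ℝ)| ≤ e) (z : Qd t c) :
    (nm (sh i z) : ℝ) ≤
      ((1 + |(t : ℝ)|) * (8 * c + 8 * (e : ℝ) ^ 2) + 4 * (|(t : ℝ)| + c)) * nm z := by
  rw [nm_castR hD, nm_castR hD]
  show ((z.re + i * z.im : ℤ) : ℝ) ^ 2 + t * ((z.re + i * z.im : ℤ) : ℝ) * (z.im : ℝ) +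
    c * (z.im : ℝ) ^ 2 ≤ _
  push_cast
  have h3 := three_le_disc hD
  obtain ⟨x, hx⟩ : ∃ x : ℝ, x = z.re := ⟨_, rfl⟩
  obtain ⟨y, hy⟩ : ∃ y : ℝ, y = z.im := ⟨_, rfl⟩
  obtain ⟨T, hT⟩ : ∃ T : ℝ, T = t := ⟨_, rfl⟩
  obtain ⟨C, hC⟩ : ∃ C : ℝ, C = c := ⟨_, rfl⟩
  obtain ⟨k, hk⟩ : ∃ k : ℝ, k = i := ⟨_, rfl⟩
  obtain ⟨E, hE⟩ : ∃ E : ℝ, E = e := ⟨_, rfl⟩
  rw [← hk, ← hE] at hi
  rw [← hx, ← hy, ← hT, ← hC, ← hk, ← hE]
  rw [← hT, ← hC] at h3
  obtain ⟨N, hN⟩ : ∃ N : ℝ, N = x ^ 2 + T * x * y + C * y ^ 2 := ⟨_, rfl⟩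
  rw [← hN]
  have hC0 : 0 < C := by nlinarith [sq_nonneg T]
  have hy2 : y ^ 2 ≤ 4 * N := by
    have h4 : 4 * N = (2 * x + T * y) ^ 2 + (4 * C - T ^ 2) * y ^ 2 := by rw [hN]; ring
    nlinarith [sq_nonneg (2 * x + T * y), sq_nonneg y]
  have hx2 : x ^ 2 ≤ 4 * C * N := by
    have h4 : 4 * C * N = (2 * C * y + T * x) ^ 2 + (4 * C - T ^ 2) * x ^ 2 := by rw [hN]; ring
    nlinarith [sq_nonneg (2 * C * y + T * x), sq_nonneg x]
  have hk2 : k ^ 2 ≤ E ^ 2 := by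
    rw [← sq_abs k]
    exact pow_le_pow_left₀ (abs_nonneg _) hi 2
  have hs : (x + k * y) ^ 2 ≤ (8 * C + 8 * E ^ 2) * N := by
    have h5 : (x + k * y) ^ 2 ≤ 2 * x ^ 2 + 2 * (k ^ 2 * y ^ 2) := by
      nlinarith [sq_nonneg (x - k * y)]
    have h6 : k ^ 2 * y ^ 2 ≤ E ^ 2 * (4 * N) :=
      mul_le_mul hk2 hy2 (sq_nonneg _) (sq_nonneg _)
    nlinarith
  have ht : T * (x + k * y) * y ≤ |T| * ((x + k * y) ^ 2 + y ^ 2) := by
    have h5 : T * (x + k * y) * y ≤ |T| * |(x + k * y) * y| := by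
      rw [mul_assoc, ← abs_mul]
      exact le_abs_self _
    have h6 : |(x + k * y) * y| ≤ (x + k * y) ^ 2 + y ^ 2 := by
      rw [abs_le]
      constructor
      · nlinarith [sq_nonneg (x + k * y + y), sq_nonneg (x + k * y), sq_nonneg y]
      · nlinarith [sq_nonneg (x + k * y - y), sq_nonneg (x + k * y), sq_nonneg y]
    exact h5.trans (mul_le_mul_of_nonneg_left h6 (abs_nonneg _))
  have hT0 := abs_nonneg T
  have h7 : |T| * ((x + k * y) ^ 2 + y ^ 2) ≤ |T| * ((8 * C + 8 * E ^ 2) * N + 4 * N) :=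
    mul_le_mul_of_nonneg_left (by linarith) hT0
  have h8 : C * y ^ 2 ≤ C * (4 * N) := mul_le_mul_of_nonneg_left hy2 hC0.le
  nlinarith

theorem w_half {s : ℝ} {j : ℤ} (h : |s - j| ≤ 1 / 2) : 1 / 2 ≤ w (s - j) := by
  unfold w
  exact le_max_of_le_right (by linarith)

/-- the windows at the scales `Y e^j` see the sheared element -/
theorem pt (hD : t ^ 2 < 4 * c) {C1 : ℝ} (hC1 : 1 ≤ C1) {i : ℤ}
    (h1 : ∀ z : Qd t c, (nm (sh i z) : ℝ) ≤ C1 * nm z)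
    (h2 : ∀ z : Qd t c, (nm z : ℝ) ≤ C1 * nm (sh i z)) {J : ℕ} (hJ : 1 + Real.log C1 ≤ J)
    {Y : ℝ} (hY : 0 < Y) {z : Qd t c} (hz : z ≠ 0) :
    bg Y z ≤ 2 * C1 * (Real.exp 1 * Real.exp 1) *
      ∑ j ∈ Icc (-(J : ℤ)) J, bg (Y * Real.exp j) (sh i z) := by
  have he := Real.exp_pos 1
  by_cases hb : bg Y z = 0
  · rw [hb]
    have h3 : 0 ≤ ∑ j ∈ Icc (-(J : ℤ)) J, bg (Y * Real.exp j) (sh i z) :=
      sum_nonneg fun j _ => bg_nonneg _ _
    positivity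
  obtain ⟨hl, hu⟩ := bg_ne hD hY hz hb
  have hN := nm_posR hD hz
  have hN' : (0 : ℝ) < nm (sh i z) := by
    have h3 := h2 z
    by_contra hcon
    push Not at hcon
    nlinarith
  have hC0 : 0 < C1 := by linarith
  obtain ⟨s, hs⟩ : ∃ s : ℝ, s = Real.log (nm (sh i z)) - Real.log Y := ⟨_, rfl⟩
  have hs1 : s ≤ 1 + Real.log C1 := by
    have h3 : Real.log (nm (sh i z)) ≤ Real.log (C1 * (Real.exp 1 * Y)) :=
      Real.log_le_log hN' ((h1 z).trans (mul_le_mul_of_nonneg_left hu hC0.le))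
    rw [Real.log_mul hC0.ne' (mul_pos he hY).ne', Real.log_mul he.ne' hY.ne', Real.log_exp] at h3
    rw [hs]
    linarith
  have hs2 : -(1 + Real.log C1) ≤ s := by
    have h3 : Real.log (Y / Real.exp 1) ≤ Real.log (C1 * nm (sh i z)) :=
      Real.log_le_log (div_pos hY he) (hl.trans (h2 z))
    rw [Real.log_mul hC0.ne' hN'.ne', Real.log_div hY.ne' he.ne', Real.log_exp] at h3
    rw [hs]
    linarith
  have hr : |s - round s| ≤ 1 / 2 := abs_sub_round s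
  have hmem : round s ∈ Icc (-(J : ℤ)) J := by
    rw [abs_le] at hr
    rw [mem_Icc]
    constructor
    · have h3 : (-(J : ℤ) - 1 : ℝ) < (round s : ℤ) := by
        push_cast
        linarith [hr.2]
      have h4 : -(J : ℤ) - 1 < round s := by exact_mod_cast h3
      omega
    · have h3 : ((round s : ℤ) : ℝ) < (J : ℤ) + 1 := by
        push_cast
        linarith [hr.1]
      have h4 : round s < (J : ℤ) + 1 := by exact_mod_cast h3
      omega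
  have h5 : bg (Y * Real.exp (round s : ℤ)) (sh i z) ≤
      ∑ j ∈ Icc (-(J : ℤ)) J, bg (Y * Real.exp j) (sh i z) :=
    single_le_sum (f := fun j : ℤ => bg (Y * Real.exp j) (sh i z)) (fun j _ => bg_nonneg _ _) hmem
  have h6 : 1 / 2 / (nm (sh i z) : ℝ) ≤ bg (Y * Real.exp (round s : ℤ)) (sh i z) := by
    unfold bg
    rw [Real.log_mul hY.ne' (Real.exp_pos _).ne', Real.log_exp, ← sub_sub, ← hs]
    exact div_le_div_of_nonneg_right (w_half hr) hN'.le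
  have h7 := bg_le' hD hY hz
  have h8 : (nm (sh i z) : ℝ) ≤ C1 * (Real.exp 1 * Y) :=
    (h1 z).trans (mul_le_mul_of_nonneg_left hu hC0.le)
  have h9 : Real.exp 1 / Y ≤ 2 * C1 * (Real.exp 1 * Real.exp 1) * (1 / 2 / (nm (sh i z) : ℝ)) := by
    rw [div_le_iff₀ hY]
    have h10 : 2 * C1 * (Real.exp 1 * Real.exp 1) * (1 / 2 / (nm (sh i z) : ℝ)) * Y =
        Real.exp 1 * ((C1 * (Real.exp 1 * Y)) / (nm (sh i z) : ℝ)) := by
      field_simp
    rw [h10]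
    have h11 : 1 ≤ (C1 * (Real.exp 1 * Y)) / (nm (sh i z) : ℝ) := (one_le_div hN').2 h8
    nlinarith
  refine h7.trans (h9.trans ?_)
  exact mul_le_mul_of_nonneg_left (h6.trans h5) (by positivity)

private theorem sum_biUnion_le_sum_sum' {α ι : Type*} [DecidableEq α] (t : Finset ι)
    (S : ι → Finset α) (f : α → ℝ) (hf : ∀ a, 0 ≤ f a) :
    ∑ z ∈ t.biUnion S, f z ≤ ∑ i ∈ t, ∑ z ∈ S i, f z := by
  classical
  induction t using Finset.induction_on with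
  | empty => simp
  | insert a t ha ih =>
    rw [Finset.biUnion_insert, Finset.sum_insert ha]
    have h1 := Finset.sum_union_inter (s₁ := S a) (s₂ := t.biUnion S) (f := f)
    have h2 : 0 ≤ ∑ z ∈ S a ∩ t.biUnion S, f z := Finset.sum_nonneg fun z _ => hf z
    linarith

theorem win_of {b m : ℤ} (hD : b ^ 2 < 4 * m) : S_WIN b m := by
  classical
  intro L e hL he
  have hD' : (b * (L : ℤ)) ^ 2 < 4 * (m * (L : ℤ) ^ 2) := by
    have h1 : (0 : ℤ) < (L : ℤ) ^ 2 := by positivity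
    calc (b * (L : ℤ)) ^ 2 = b ^ 2 * (L : ℤ) ^ 2 := by ring
      _ < 4 * m * (L : ℤ) ^ 2 := mul_lt_mul_of_pos_right hD h1
      _ = 4 * (m * (L : ℤ) ^ 2) := by ring
  obtain ⟨c1, hc1, Y1, hA⟩ := Pool.Agent.W240.GA.A0.a0_of hD' (Pool.Agent.W45.GA.lat hD')
  obtain ⟨C1, hC1⟩ : ∃ C1 : ℝ, C1 = (1 + |((b * (L : ℤ) : ℤ) : ℝ)|) *
      (8 * ((m * (L : ℤ) ^ 2 : ℤ) : ℝ) + 8 * (e : ℝ) ^ 2) +
      4 * (|((b * (L : ℤ) : ℤ) : ℝ)| + ((m * (L : ℤ) ^ 2 : ℤ) : ℝ)) := ⟨_, rfl⟩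
  have hm0 : (0 : ℝ) ≤ ((m * (L : ℤ) ^ 2 : ℤ) : ℝ) := by
    have h1 : (0 : ℤ) ≤ m * (L : ℤ) ^ 2 := by nlinarith [sq_nonneg (b * (L : ℤ))]
    exact_mod_cast h1
  have heR : (1 : ℝ) ≤ e := by exact_mod_cast he
  have hC11 : 1 ≤ C1 := by
    rw [hC1]
    have h1 := abs_nonneg ((b * (L : ℤ) : ℤ) : ℝ)
    have h2 : (1 : ℝ) ≤ (e : ℝ) ^ 2 := one_le_pow₀ heR
    nlinarith [mul_nonneg h1 hm0, mul_nonneg h1 (by positivity : (0 : ℝ) ≤ (e : ℝ) ^ 2)]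
  obtain ⟨J, hJ⟩ : ∃ J : ℕ, 1 + Real.log C1 ≤ J := exists_nat_ge _
  obtain ⟨M, hM⟩ : ∃ M : ℝ, M = 2 * C1 * (Real.exp 1 * Real.exp 1) := ⟨_, rfl⟩
  have hM0 : 0 < M := by rw [hM]; positivity
  have hJ1 : (0 : ℝ) < 2 * J + 1 := by positivity
  have he1 : (0 : ℝ) < e + 1 := by positivity
  refine ⟨c1 / ((e + 1) * M * (2 * J + 1)), by positivity, Real.exp J,
    Real.one_le_exp (by positivity), max Y1 1, ?_⟩
  intro Y hY
  have hY0 : 0 < Y := lt_of_lt_of_le one_pos ((le_max_right _ _).trans hY)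
  have hAY := hA Y ((le_max_left _ _).trans hY)
  obtain ⟨S, hS⟩ : ∃ S : ℕ → Finset (Qd (b * L) (m * L ^ 2)), S = fun i : ℕ =>
    (pball (b * L) (m * L ^ 2) (Real.exp 1 * Y)).filter
      (fun z => Int.gcd (z.re + i * z.im) e = 1) := ⟨_, rfl⟩
  have hsum : ∑ z ∈ pball (b * L) (m * L ^ 2) (Real.exp 1 * Y), bg Y z ≤
      ∑ i ∈ range (e + 1), ∑ z ∈ S i, bg Y z := by
    have h1 : pball (b * L) (m * L ^ 2) (Real.exp 1 * Y) ⊆ (range (e + 1)).biUnion S := by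
      intro z hz
      have hp : Int.gcd z.re z.im = 1 := ((mem_pball hD').1 hz).1
      obtain ⟨i, hi, hi2⟩ := exists_cop hp he
      rw [mem_biUnion]
      refine ⟨i, hi, ?_⟩
      rw [hS]
      exact mem_filter.2 ⟨hz, hi2⟩
    refine (sum_le_sum_of_subset_of_nonneg h1 fun z _ _ => bg_nonneg _ _).trans ?_
    exact sum_biUnion_le_sum_sum' _ S (fun z => bg Y z) fun z => bg_nonneg _ _
  obtain ⟨i, hi, hi2⟩ : ∃ i ∈ range (e + 1), c1 / (e + 1) ≤ ∑ z ∈ S i, bg Y z := by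
    by_contra hcon
    push Not at hcon
    have h1 : ∑ i ∈ range (e + 1), ∑ z ∈ S i, bg Y z < ∑ i ∈ range (e + 1), c1 / (e + 1) :=
      sum_lt_sum_of_nonempty ⟨0, by simp⟩ hcon
    rw [sum_const, card_range, nsmul_eq_mul] at h1
    push_cast at h1
    rw [mul_div_cancel₀ _ he1.ne'] at h1
    linarith
  rw [mem_range, Nat.lt_succ_iff] at hi
  have hiR : |((i : ℤ) : ℝ)| ≤ e := by
    rw [Int.cast_natCast, Nat.abs_cast]
    exact_mod_cast hi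
  have hiR' : |((-(i : ℤ) : ℤ) : ℝ)| ≤ e := by
    rw [Int.cast_neg, abs_neg]
    exact hiR
  have k1 : ∀ z : Qd (b * L) (m * L ^ 2), (nm (sh (i : ℤ) z) : ℝ) ≤ C1 * nm z := by
    intro z
    rw [hC1]
    exact nm_sh hD' hiR z
  have k2 : ∀ z : Qd (b * L) (m * L ^ 2), (nm z : ℝ) ≤ C1 * nm (sh (i : ℤ) z) := by
    intro z
    have h1 := nm_sh hD' hiR' (sh (i : ℤ) z)
    rw [sh_sh, ← hC1] at h1
    exact h1
  have hSz : ∀ z ∈ S i, prim z ∧ Int.gcd (z.re + i * z.im) e = 1 := by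
    intro z hz
    rw [hS] at hz
    obtain ⟨h1, h2⟩ := mem_filter.1 hz
    exact ⟨((mem_pball hD').1 h1).1, h2⟩
  have hpt : ∀ z ∈ S i, bg Y z ≤ M * ∑ j ∈ Icc (-(J : ℤ)) J, bg (Y * Real.exp j) (sh (i : ℤ) z) := by
    intro z hz
    rw [hM]
    exact pt hD' hC11 k1 k2 hJ hY0 (prim_ne_zero (hSz z hz).1)
  have hj : ∀ j : ℤ, ∑ z ∈ S i, bg (Y * Real.exp j) (sh (i : ℤ) z) ≤
      ∑ z ∈ UU b m L e (Real.exp 1 * (Y * Real.exp j)), bg (Y * Real.exp j) z := by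
    intro j
    have hYj : 0 < Y * Real.exp j := mul_pos hY0 (Real.exp_pos _)
    rw [← sum_image (f := fun z => bg (Y * Real.exp j) z) (s := S i) (g := sh (i : ℤ))
      (fun z _ z' _ h => sh_inj _ h), ← sum_filter_ne_zero]
    refine sum_le_sum_of_subset_of_nonneg ?_ fun z _ _ => bg_nonneg _ _
    intro z' hz'
    obtain ⟨h1, h2⟩ := mem_filter.1 hz'
    obtain ⟨z, hz, rfl⟩ := mem_image.1 h1
    obtain ⟨h3, h4⟩ := hSz z hz
    have h5 : prim (sh (i : ℤ) z) := prim_sh h3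
    unfold UU
    rw [mem_filter, mem_pball hD']
    exact ⟨⟨h5, (bg_ne hD' hYj (prim_ne_zero h5) h2).2⟩, h4⟩
  have htot : c1 / (e + 1) ≤ M * ∑ j ∈ Icc (-(J : ℤ)) J,
      ∑ z ∈ UU b m L e (Real.exp 1 * (Y * Real.exp j)), bg (Y * Real.exp j) z := by
    refine hi2.trans ((sum_le_sum hpt).trans ?_)
    rw [← mul_sum, sum_comm]
    exact mul_le_mul_of_nonneg_left (sum_le_sum fun j _ => hj j) hM0.le
  obtain ⟨j, hjm, hj2⟩ : ∃ j ∈ Icc (-(J : ℤ)) J, c1 / ((e + 1) * M * (2 * J + 1)) ≤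
      ∑ z ∈ UU b m L e (Real.exp 1 * (Y * Real.exp j)), bg (Y * Real.exp j) z := by
    by_contra hcon
    push Not at hcon
    have h1 := sum_lt_sum_of_nonempty (s := Icc (-(J : ℤ)) J) ⟨0, by simp⟩ hcon
    rw [sum_const, Int.card_Icc, nsmul_eq_mul] at h1
    have h2 : (((J : ℤ) + 1 - -(J : ℤ)).toNat : ℝ) = 2 * J + 1 := by
      have h3 : ((J : ℤ) + 1 - -(J : ℤ)).toNat = 2 * J + 1 := by omega
      rw [h3]
      push_cast
      ring
    rw [h2] at h1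
    have h3 := mul_lt_mul_of_pos_left h1 hM0
    have h4 : M * ((2 * (J : ℝ) + 1) * (c1 / ((e + 1) * M * (2 * J + 1)))) = c1 / (e + 1) := by
      field_simp
    rw [h4] at h3
    linarith
  rw [mem_Icc] at hjm
  have hjR1 : (j : ℝ) ≤ J := by exact_mod_cast hjm.2
  have hjR2 : -(J : ℝ) ≤ j := by exact_mod_cast hjm.1
  refine ⟨Y * Real.exp j, ?_, ?_, hj2⟩
  · rw [div_le_iff₀ (Real.exp_pos _), mul_assoc, ← Real.exp_add]
    have h1 : (1 : ℝ) ≤ Real.exp (j + J) := Real.one_le_exp (by linarith)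
    nlinarith
  · rw [mul_comm]
    exact mul_le_mul_of_nonneg_right (Real.exp_le_exp.2 hjR1) hY0.le

end Pool.Agent.H685.Q648

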