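import Pool.Agent.H648.Q.Defs2
import Pool.Agent.H685.Q648.Near
import Pool.Agent.H685.Q648.Win
import Pool.Agent.H287.Q648.ANG

/-!
# Project Q648, job NEARI (helper685): many near pairs of different sign and equal character
-/

set_option autoImplicit false

namespace Pool.Agent.H685.Q648

open Finset
open Pool.Agent.H376R2.MR (FK Fj lam)
open Pool.Agent.W78.GA
open Pool.Agent.H648.Q
open Pool.Agent.H648.Q2

/-! ### Common lemmas -/

theorem chi_mul_re {A : ℕ} {χ : ℤ → ℤ} (hχ : IsChi A χ) {t c : ℤ} (hc : (A : ℤ) ∣ c)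
    (z w : Qd t c) : χ (z * w).re = χ z.re * χ w.re := by
  rw [← hχ.mul]
  apply hχ.per
  have h1 : (z * w).re - z.re * w.re = -c * z.im * w.im := by
    rw [QuadraticAlgebra.re_mul]
    ring
  rw [h1]
  exact Dvd.dvd.mul_right (Dvd.dvd.mul_right (dvd_neg.2 hc) _) _

theorem chi_abs {A : ℕ} {χ : ℤ → ℤ} (hχ : IsChi A χ) (x : ℤ) : |χ x| ≤ 1 := by
  by_cases h : Int.gcd x A = 1
  · rcases hχ.val x h with h1 | h1 <;> rw [h1] <;> norm_num
  · rw [hχ.zero x h]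
    norm_num

theorem gcd_of_chi {A : ℕ} {χ : ℤ → ℤ} (hχ : IsChi A χ) {x : ℤ} (h : χ x = 1) :
    Int.gcd x A = 1 := by
  by_contra h1
  rw [hχ.zero x h1] at h
  exact zero_ne_one h

theorem lam_abs (n : ℕ) : |lam n| ≤ 1 := by
  rcases lam_eq n with h | h <;> rw [h] <;> norm_num

theorem FK_mono {K K' : ℕ} (h : K ≤ K') : FK K ⊆ FK K' := by
  intro k hk
  unfold FK at hk ⊢
  rw [mem_Ioo] at hk ⊢
  have h1 : (K : ℤ) ≤ K' := by exact_mod_cast h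
  constructor <;> linarith [hk.1, hk.2]

theorem mrq_two {F G : ℝ → ℤ → ℂ} {δ : ℝ} (hF : MRq F δ) (hG : MRq G δ) :
    ∃ h : ℝ, 1 ≤ h ∧ ∃ Y₀ : ℝ, ∀ Y : ℝ, Y₀ ≤ Y →
      ∑ k ∈ (FK ⌊Y / h⌋₊).erase 0, ‖F Y k‖ ^ 2 + ∑ k ∈ (FK ⌊Y / h⌋₊).erase 0, ‖G Y k‖ ^ 2 ≤
        2 * δ := by
  obtain ⟨h1, hh1, Y1, hY1⟩ := hF
  obtain ⟨h2, hh2, Y2, hY2⟩ := hG
  refine ⟨max h1 h2, hh1.trans (le_max_left _ _), max (max Y1 Y2) 0, fun Y hY => ?_⟩
  have e1 : Y1 ≤ Y := (le_max_left _ _).trans ((le_max_left _ _).trans hY)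
  have e2 : Y2 ≤ Y := (le_max_right _ _).trans ((le_max_left _ _).trans hY)
  have e0 : 0 ≤ Y := (le_max_right _ _).trans hY
  have g1 : Y / max h1 h2 ≤ Y / h1 :=
    div_le_div_of_nonneg_left e0 (by linarith) (le_max_left _ _)
  have g2 : Y / max h1 h2 ≤ Y / h2 :=
    div_le_div_of_nonneg_left e0 (by linarith) (le_max_right _ _)
  have k1 : (FK ⌊Y / max h1 h2⌋₊).erase 0 ⊆ (FK ⌊Y / h1⌋₊).erase 0 :=
    erase_subset_erase _ (FK_mono (Nat.floor_mono g1))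
  have k2 : (FK ⌊Y / max h1 h2⌋₊).erase 0 ⊆ (FK ⌊Y / h2⌋₊).erase 0 :=
    erase_subset_erase _ (FK_mono (Nat.floor_mono g2))
  have m1 := (sum_le_sum_of_subset_of_nonneg (f := fun k => ‖F Y k‖ ^ 2) k1
    fun _ _ _ => by positivity).trans (hY1 Y e1)
  have m2 := (sum_le_sum_of_subset_of_nonneg (f := fun k => ‖G Y k‖ ^ 2) k2
    fun _ _ _ => by positivity).trans (hY2 Y e2)
  linarith

/-! ### The imaginary case -/

theorem NPI_mono {g : ℕ → ℤ} {b m : ℤ} {A : ℕ} {χ : ℤ → ℤ}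
    (hD : (b * (A : ℤ)) ^ 2 < 4 * (m * (A : ℤ) ^ 2)) (u : Qd (b * A) (m * A ^ 2)) (B : ℕ)
    {X X' : ℝ} (h : X ≤ X') : NPI g b m A χ u B X ⊆ NPI g b m A χ u B X' := by
  classical
  intro p hp
  unfold NPI at hp ⊢
  rw [mem_filter, mem_product] at hp ⊢
  exact ⟨⟨UU_mono hD h hp.1.1, UU_mono hD h hp.1.2⟩, hp.2⟩

theorem API_sub {g : ℕ → ℤ} {b m : ℤ} {A : ℕ} {χ : ℤ → ℤ} {u : Qd (b * A) (m * A ^ 2)} {B : ℕ}
    {X δ : ℝ} (h : AP g b m A A u δ X ⊆ NPr g b m A A u B X) :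
    API g b m A χ u δ X ⊆ NPI g b m A χ u B X := by
  classical
  intro p hp
  unfold API at hp
  rw [mem_filter] at hp
  have h1 : p ∈ AP g b m A A u δ X := by
    unfold AP
    rw [mem_filter]
    exact ⟨hp.1, hp.2.1, hp.2.2.2⟩
  have h2 := h h1
  unfold NPr at h2
  rw [mem_filter] at h2
  unfold NPI
  rw [mem_filter]
  exact ⟨hp.1, hp.2.1, hp.2.2.1, h2.2.2.1, h2.2.2.2⟩

/-- NI4 -/
theorem neari_of {b m : ℤ} {A : ℕ} (hD : b ^ 2 < 4 * m) (hA : 1 ≤ A)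
    (hDA : 4 * (b ^ 2 - 4 * m) ∣ (A : ℤ)) (hchi : S_CHI) (hunt : S_UNT2 b m)
    (htin : ∀ χ, S_TINI lam b m A χ) (hfar : ∀ χ, S_FARI lam b m A χ)
    (hmr : ∀ F : Qd (b * A) (m * A ^ 2) → ℤ, I.Pf F → I.S_MR F) :
    S_NEARI lam b m A (chi (b ^ 2 - 4 * m) A) := by
  classical
  have hD0 : b ^ 2 - 4 * m ≠ 0 := by
    intro h
    linarith
  have hχ := (hchi (b ^ 2 - 4 * m) A hD0 hA hDA).1
  obtain ⟨χ, hχe⟩ : ∃ χ, χ = chi (b ^ 2 - 4 * m) A := ⟨_, rfl⟩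
  obtain ⟨u₀, hpu, hcu, hgu, -⟩ := hunt A hA hDA
  rw [← hχe] at hχ hcu ⊢
  have hD' : (b * (A : ℤ)) ^ 2 < 4 * (m * (A : ℤ) ^ 2) := by
    have h1 : (0 : ℤ) < (A : ℤ) ^ 2 := by positivity
    calc (b * (A : ℤ)) ^ 2 = b ^ 2 * (A : ℤ) ^ 2 := by ring
      _ < 4 * m * (A : ℤ) ^ 2 := mul_lt_mul_of_pos_right hD h1
      _ = 4 * (m * (A : ℤ) ^ 2) := by ring
  have hu₀ : u₀ ≠ 0 := prim_ne_zero hpu
  have hdvd : (A : ℤ) ∣ m * (A : ℤ) ^ 2 := ⟨m * A, by ring⟩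
  have hlam : ∀ z w : Qd (b * A) (m * A ^ 2), z ≠ 0 → w ≠ 0 →
      lam (nm (z * w)) = lam (nm z) * lam (nm w) := by
    intro z w hz hw
    rw [nm_mul, lam_mul (nm_pos hD' hz).ne' (nm_pos hD' hw).ne']
  have hF0 : I.Pf (fun z : Qd (b * A) (m * A ^ 2) => lam (nm z) * χ z.re ^ 2) := by
    constructor
    · intro z w hz hw
      rw [hlam z w hz hw, chi_mul_re hχ hdvd]
      ring
    · intro z
      rw [abs_mul, abs_pow]
      have h1 := lam_abs (nm z)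
      have h2 := chi_abs hχ z.re
      have h3 : |χ z.re| ^ 2 ≤ 1 := pow_le_one₀ (abs_nonneg _) h2
      exact mul_le_one₀ h1 (by positivity) h3
  have hF2 : I.Pf (fun z : Qd (b * A) (m * A ^ 2) => lam (nm z) * χ z.re) := by
    constructor
    · intro z w hz hw
      rw [hlam z w hz hw, chi_mul_re hχ hdvd]
      ring
    · intro z
      rw [abs_mul]
      exact mul_le_one₀ (lam_abs (nm z)) (abs_nonneg _) (chi_abs hχ z.re)
  obtain ⟨c₀, hc₀, C₀, hC₀, Yw, hwin⟩ := win_of hD A A hA hA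
  obtain ⟨C, hC, hfar⟩ := hfar χ
  obtain ⟨h, hh, Y₁, hmr⟩ := mrq_two (hmr _ hF0 (c₀ ^ 2 / 8) (by positivity))
    (hmr _ hF2 (c₀ ^ 2 / 8) (by positivity))
  obtain ⟨T, hT⟩ : ∃ T : ℝ, T = 16 * Real.exp 1 ^ 4 * (2 * C) / c₀ ^ 2 + 1 := ⟨_, rfl⟩
  have hE1 : 1 ≤ Real.exp 1 := Real.one_le_exp (by norm_num)
  have hE0 : 0 < Real.exp 1 := Real.exp_pos 1
  have hT1 : 1 ≤ T := by
    rw [hT]
    have : 0 ≤ 16 * Real.exp 1 ^ 4 * (2 * C) / c₀ ^ 2 := by positivity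
    linarith
  have hh0 : 0 < h := by linarith
  have hC₀0 : 0 < C₀ := by linarith
  obtain ⟨U, hU⟩ : ∃ U : ℝ, U = max 1 (nm u₀ : ℝ) := ⟨_, rfl⟩
  have hU1 : 1 ≤ U := by rw [hU]; exact le_max_left _ _
  have hU2 : (nm u₀ : ℝ) ≤ U := by rw [hU]; exact le_max_right _ _
  obtain ⟨B, hB⟩ : ∃ B : ℕ, 4 * Real.exp 1 * Real.sqrt U * h * T ≤ B := exists_nat_ge _
  have hone : (1 : Qd (b * A) (m * A ^ 2)) ≠ 0 := by
    rw [← one_le_nm hD', nm_one]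
  have hne : (1 : Qd (b * A) (m * A ^ 2)) ≠ u₀ := by
    rintro rfl
    rw [nm_one] at hgu
    have h1 := Pool.Agent.W78.GS.pm_lam.mul (m := 1) (n := 1) one_ne_zero one_ne_zero
    rw [mul_one, hgu] at h1
    norm_num at h1
  refine ⟨{1, u₀}, B, c₀ ^ 2 / (2 * Real.exp 1 ^ 2 * (Real.exp 1 * C₀ ^ 2)) / 2, ?_,
    by positivity, Real.exp 1 * C₀ ^ 2 * (|Yw| + |Y₁| + 4 * h * T), ?_⟩
  · intro u hu
    rw [mem_insert, mem_singleton] at hu
    rcases hu with rfl | rfl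
    · refine ⟨?_, ?_⟩
      · unfold prim
        rw [QuadraticAlgebra.re_one, QuadraticAlgebra.im_one]
        rfl
      · rw [QuadraticAlgebra.re_one]
        exact Int.one_gcd
    · exact ⟨hpu, gcd_of_chi hχ hcu⟩
  intro X hX
  have hhT : 1 ≤ h * T := one_le_mul_of_one_le_of_one_le hh hT1
  have hM : 4 ≤ |Yw| + |Y₁| + 4 * h * T := by
    have := abs_nonneg Yw
    have := abs_nonneg Y₁
    linarith
  have hEC : 0 < Real.exp 1 * C₀ ^ 2 := by positivity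
  have hX0 : 0 < X := lt_of_lt_of_le (mul_pos hEC (by linarith)) hX
  -- the scale
  have hYw : Yw ≤ X / (Real.exp 1 * C₀) := by
    rw [le_div_iff₀ (by positivity)]
    have h4 : Yw * (Real.exp 1 * C₀) ≤ (|Yw| + |Y₁| + 4 * h * T) * (Real.exp 1 * C₀ ^ 2) := by
      have h5 : Yw ≤ |Yw| + |Y₁| + 4 * h * T := by
        have := le_abs_self Yw
        have := abs_nonneg Y₁
        linarith
      have h6 : Real.exp 1 * C₀ ≤ Real.exp 1 * C₀ ^ 2 :=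
        mul_le_mul_of_nonneg_left (by nlinarith) hE0.le
      exact mul_le_mul h5 h6 (by positivity) (by linarith)
    linarith
  obtain ⟨Y, hY1, hY2, hY3⟩ := hwin _ hYw
  have hYX : Real.exp 1 * Y ≤ X := by
    have h4 : C₀ * (X / (Real.exp 1 * C₀)) = X / Real.exp 1 := by
      field_simp
    rw [h4, le_div_iff₀ hE0] at hY2
    linarith
  have hXY : X / (Real.exp 1 * C₀ ^ 2) ≤ Y := by
    refine le_trans (le_of_eq ?_) hY1
    field_simp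
  have hYM : |Yw| + |Y₁| + 4 * h * T ≤ Y := by
    refine le_trans ?_ hXY
    rw [le_div_iff₀ hEC]
    linarith
  have hY₁ : Y₁ ≤ Y := by
    have := le_abs_self Y₁
    have := abs_nonneg Yw
    linarith
  have hY4 : 4 * h * T ≤ Y := by
    have := abs_nonneg Y₁
    have := abs_nonneg Yw
    linarith
  have hY0 : 0 < Y := by linarith
  obtain ⟨K, hK⟩ : ∃ K : ℕ, K = ⌊Y / h⌋₊ := ⟨_, rfl⟩
  have hYh : 4 * T ≤ Y / h := by
    rw [le_div_iff₀ hh0]; linarith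
  have hK1 : (K : ℝ) ≤ Y / h := by rw [hK]; exact Nat.floor_le (by positivity)
  have hK2 : Y / h - 1 < K := by rw [hK]; exact Nat.sub_one_lt_floor _
  have hK3 : Y / (2 * h) ≤ K := by
    have h4 : Y / (2 * h) = (Y / h) / 2 := by field_simp
    rw [h4]
    linarith
  have hK4 : 2 * T ≤ K := by linarith
  have hK0 : (0 : ℝ) < K := by linarith
  have hKn : 1 ≤ K := by exact_mod_cast hK0
  have hKY : (K : ℝ) ≤ Y := hK1.trans (div_le_self hY0.le hh)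
  have hX1 : 1 ≤ Real.exp 1 * Y := by nlinarith
  have hTK : T / K ≤ 1 / 2 := by
    rw [div_le_div_iff₀ hK0 (by norm_num)]
    linarith
  have hTK0 : 0 ≤ T / K := by positivity
  have hTK2 : Y * (T / K) ≤ 2 * h * T := by
    rw [mul_div_assoc', div_le_iff₀ hK0]
    rw [div_le_iff₀ (by positivity)] at hK3
    nlinarith
  -- the pairs
  have hN : ∀ u : Qd (b * A) (m * A ^ 2), u ≠ 0 → (nm u : ℝ) ≤ U →
      ((API lam b m A χ u (T / K) (Real.exp 1 * Y)).card : ℝ) ≤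
        ((NPI lam b m A χ u B X).card : ℝ) := by
    intro u hu huU
    have h4 : AP lam b m A A u (T / K) (Real.exp 1 * Y) ⊆
        NPr lam b m A A u B (Real.exp 1 * Y) := by
      refine Pool.Agent.H287.Q648.ang_of hD A A hA u B _ _ hX1 hTK0 hTK hu ?_
      refine le_trans ?_ hB
      have h5 : Real.sqrt (nm u) ≤ Real.sqrt U := Real.sqrt_le_sqrt huU
      calc 2 * (Real.exp 1 * Y) * Real.sqrt (nm u) * (T / K) =
          2 * Real.exp 1 * Real.sqrt (nm u) * (Y * (T / K)) := by ring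
        _ ≤ 2 * Real.exp 1 * Real.sqrt U * (2 * h * T) := by
          refine mul_le_mul ?_ hTK2 (by positivity) (by positivity)
          exact mul_le_mul_of_nonneg_left h5 (by positivity)
        _ = 4 * Real.exp 1 * Real.sqrt U * h * T := by ring
    exact_mod_cast card_le_card ((API_sub h4).trans (NPI_mono hD' u B hYX))
  have hN1 := hN 1 hone (by rw [nm_one]; exact_mod_cast hU1)
  have hN2 := hN u₀ hu₀ hU2
  have hF1 := hfar (Real.exp 1 * Y) T K 1 hX1 hT1 hKn hK4 hone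
  have hF2 := hfar (Real.exp 1 * Y) T K u₀ hX1 hT1 hKn hK4 hu₀
  have hG := hmr Y hY₁
  rw [← hK] at hG
  have hG' : ∑ k ∈ (FK K).erase 0, ‖I.GG (t := b * A) (c := m * A ^ 2)
        (fun z => lam (nm z) * χ z.re ^ 2) Y k‖ ^ 2 +
      ∑ k ∈ (FK K).erase 0, ‖I.GG (t := b * A) (c := m * A ^ 2)
        (fun z => lam (nm z) * χ z.re) Y k‖ ^ 2 ≤ c₀ ^ 2 / 4 := hG.trans (by linarith)
  have hmain := htin χ hχ u₀ hu₀ hgu hcu Y K hY0 hKn
  have hmain2 := (pow_le_pow_left₀ hc₀.le hY3 2).trans hmain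
  obtain ⟨N₁, hN₁⟩ : ∃ N : ℝ, N = ((API lam b m A χ 1 (T / K) (Real.exp 1 * Y)).card : ℝ) :=
    ⟨_, rfl⟩
  obtain ⟨N₂, hN₂⟩ : ∃ N : ℝ, N = ((API lam b m A χ u₀ (T / K) (Real.exp 1 * Y)).card : ℝ) :=
    ⟨_, rfl⟩
  have hN₁0 : 0 ≤ N₁ := by rw [hN₁]; positivity
  have hN₂0 : 0 ≤ N₂ := by rw [hN₂]; positivity
  rw [← hN₁] at hF1 hN1
  rw [← hN₂] at hF2 hN2
  have hfin := near_ineq (c₀ := c₀) (C := 2 * C) (N₁ := 2 * N₁) (N₂ := 2 * N₂)
    (F₁ := 2 * FSI lam b m A χ 1 K (Real.exp 1 * Y))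
    (F₂ := 2 * FSI lam b m A χ u₀ K (Real.exp 1 * Y)) hc₀ (by positivity) hT hY0 hK0 hKY
    (by positivity) (by positivity) (by linarith) (by linarith) hG' (by linarith)
  rw [sum_pair hne]
  have hfin2 : c₀ ^ 2 * Y / (2 * Real.exp 1 ^ 2) / 2 ≤
      ((NPI lam b m A χ 1 B X).card : ℝ) + ((NPI lam b m A χ u₀ B X).card : ℝ) := by linarith
  refine le_trans ?_ hfin2
  have h5 : c₀ ^ 2 / (2 * Real.exp 1 ^ 2 * (Real.exp 1 * C₀ ^ 2)) / 2 * X =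
      c₀ ^ 2 * (X / (Real.exp 1 * C₀ ^ 2)) / (2 * Real.exp 1 ^ 2) / 2 := by
    field_simp
  rw [h5]
  refine div_le_div_of_nonneg_right ?_ (by norm_num)
  refine div_le_div_of_nonneg_right ?_ (by positivity)
  exact mul_le_mul_of_nonneg_left hXY (by positivity)

end Pool.Agent.H685.Q648
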