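import Pool.Agent.H648.Q.Defs2
import Pool.Agent.H685.Q648.NearI
import Pool.Graph.R_seed8.W78.GR.Basic

/-!
# Project Q648, job NEARR (helper685): near pairs of different sign and equal character, real case
-/

set_option autoImplicit false
set_option linter.unusedVariables false

namespace Pool.Agent.H685.Q648

open Finset
open Pool.Agent.H376R2.MR (FK Fj lam)
open Pool.Agent.W78.GA (Qd nm prim bg dt ip lam_mul nm_mul nm_one prim_ne_zero)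
open Pool.Agent.W78.GR (Un tp fd ang pball)
open Pool.Agent.H648.Q
open Pool.Agent.H648.Q2

theorem UR_mono {t c : ℤ} {η : (Qd t c)ˣ} (U : Un t c η) (A : ℕ) {X X' : ℝ} (h : X ≤ X') :
    R.UR η A X ⊆ R.UR η A X' := by
  intro z hz
  unfold R.UR at hz ⊢
  rw [mem_filter, U.mem_pball] at hz ⊢
  exact ⟨⟨hz.1.1, hz.1.2.1, hz.1.2.2.trans h⟩, hz.2⟩

theorem NPR_mono {g : ℕ → ℤ} {t c : ℤ} {A : ℕ} {χ : ℤ → ℤ} {η : (Qd t c)ˣ} (U : Un t c η)
    (u : Qd t c) (B : ℕ) {X X' : ℝ} (h : X ≤ X') : NPR g A χ η u B X ⊆ NPR g A χ η u B X' := by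
  classical
  intro p hp
  unfold NPR at hp ⊢
  rw [mem_filter, mem_product] at hp ⊢
  exact ⟨⟨UR_mono U A h hp.1.1, UR_mono U A h hp.1.2⟩, hp.2⟩

theorem chi_one {A : ℕ} {χ : ℤ → ℤ} (hχ : IsChi A χ) : χ 1 = 1 := by
  have h1 := hχ.mul 1 1
  rw [mul_one] at h1
  rcases hχ.val 1 Int.one_gcd with h | h
  · exact h
  · rw [h] at h1
    norm_num at h1

theorem lam_one' : lam 1 = 1 := by
  have h1 := lam_mul (m := 1) (n := 1) one_ne_zero one_ne_zero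
  rw [mul_one] at h1
  rcases Pool.Agent.W78.GA.lam_eq 1 with h | h
  · exact h
  · rw [h] at h1
    norm_num at h1

theorem chi_zpow {A : ℕ} {χ : ℤ → ℤ} (hχ : IsChi A χ) {t c : ℤ} (hc : (A : ℤ) ∣ c)
    {η : (Qd t c)ˣ} (hη : (A : ℤ) ∣ (η : Qd t c).re - 1) (j : ℤ) (z : Qd t c) :
    χ (((η ^ j : (Qd t c)ˣ) : Qd t c) * z).re = χ z.re := by
  let φ : Qd t c →* ℤ :=
    { toFun := fun z => χ z.re
      map_one' := by
        rw [QuadraticAlgebra.re_one]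
        exact chi_one hχ
      map_mul' := fun z w => chi_mul_re hχ hc z w }
  have h1 : Units.map φ η = 1 := by
    ext
    change χ (η : Qd t c).re = 1
    rw [hχ.per _ 1 hη, chi_one hχ]
  have h2 : Units.map φ (η ^ j) = 1 := by rw [map_zpow, h1, one_zpow]
  have h3 : χ ((η ^ j : (Qd t c)ˣ) : Qd t c).re = 1 := congrArg (fun u : ℤˣ => (u : ℤ)) h2
  rw [chi_mul_re hχ hc, h3, one_mul]

/-- NR4 -/
theorem nearr_of {b m : ℤ} {A : ℕ} {η : (Qd (b * A) (m * A ^ 2))ˣ} (hD : 4 * m < b ^ 2)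
    (hns : ¬ IsSquare (b ^ 2 - 4 * m)) (hA : 1 ≤ A) (hDA : 4 * (b ^ 2 - 4 * m) ∣ (A : ℤ))
    (U : Un (b * A) (m * A ^ 2) η) (hη : (A : ℤ) ∣ (η : Qd (b * A) (m * A ^ 2)).re - 1)
    (hchi : S_CHI) (hunt : S_UNT2 b m) (htin : ∀ χ, S_TINR lam A χ η)
    (hfar : ∀ χ, S_FARR lam A χ η) (hang : S_ANGR lam A (chi (b ^ 2 - 4 * m) A) η)
    (hwin : S_WINR A η) (hmr : ∀ F, R.Pf η F → R.S_MR η F) :
    S_NEARR lam A (chi (b ^ 2 - 4 * m) A) η := by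
  classical
  have hD0 : b ^ 2 - 4 * m ≠ 0 := by
    intro h
    linarith
  have hχ := (hchi (b ^ 2 - 4 * m) A hD0 hA hDA).1
  obtain ⟨χ, hχe⟩ : ∃ χ, χ = chi (b ^ 2 - 4 * m) A := ⟨_, rfl⟩
  obtain ⟨u₀, hpu, hcu, hgu, htu⟩ := hunt A hA hDA
  replace htu := htu hD
  rw [← hχe] at hχ hcu hang ⊢
  have hd := U.disc
  have hdvd : (A : ℤ) ∣ m * (A : ℤ) ^ 2 := ⟨m * A, by ring⟩
  have hlam : ∀ z w : Qd (b * A) (m * A ^ 2), tp z → tp w →
      lam (nm (z * w)) = lam (nm z) * lam (nm w) := by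
    intro z w hz hw
    rw [nm_mul, lam_mul (Pool.Agent.W78.GR.nm_pos hd hz).ne' (Pool.Agent.W78.GR.nm_pos hd hw).ne']
  have hχη : χ (η : Qd (b * A) (m * A ^ 2)).re = 1 := by
    rw [hχ.per _ 1 hη, chi_one hχ]
  have hF0 : R.Pf η (fun z : Qd (b * A) (m * A ^ 2) => lam (nm z) * χ z.re ^ 2) := by
    constructor
    · intro z w hz hw
      rw [hlam z w hz hw, chi_mul_re hχ hdvd]
      ring
    · intro z
      rw [abs_mul, abs_pow]
      have h1 := lam_abs (nm z)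
      have h2 := chi_abs hχ z.re
      have h3 : |χ z.re| ^ 2 ≤ 1 := pow_le_one₀ (abs_nonneg _) h2
      exact mul_le_one₀ h1 (by positivity) h3
    · rw [Pool.Agent.W78.GR.Un.nm_eta, lam_one', hχη]
      norm_num
  have hF2 : R.Pf η (fun z : Qd (b * A) (m * A ^ 2) => lam (nm z) * χ z.re) := by
    constructor
    · intro z w hz hw
      rw [hlam z w hz hw, chi_mul_re hχ hdvd]
      ring
    · intro z
      rw [abs_mul]
      exact mul_le_one₀ (lam_abs (nm z)) (abs_nonneg _) (chi_abs hχ z.re)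
    · rw [Pool.Agent.W78.GR.Un.nm_eta, lam_one', hχη]
      norm_num
  have htp1 : tp (1 : Qd (b * A) (m * A ^ 2)) := Pool.Agent.W78.GR.tp_one
  have hp1 : prim (1 : Qd (b * A) (m * A ^ 2)) := by
    unfold prim
    rw [QuadraticAlgebra.re_one, QuadraticAlgebra.im_one]
    rfl
  have hc1 : χ (1 : Qd (b * A) (m * A ^ 2)).re = 1 := by
    rw [QuadraticAlgebra.re_one]
    exact chi_one hχ
  obtain ⟨c₀, hc₀, C₀, hC₀, Yw, hwin⟩ := hwin
  obtain ⟨C, hC, hfar⟩ := hfar χ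
  obtain ⟨C1, J1, hC1, hang1⟩ := hang 1 htp1
  obtain ⟨C2, J2, hC2, hang2⟩ := hang u₀ htu
  obtain ⟨h, hh, Y₁, hmr⟩ := mrq_two (hmr _ hF0 (c₀ ^ 2 / 8) (by positivity))
    (hmr _ hF2 (c₀ ^ 2 / 8) (by positivity))
  obtain ⟨T, hT⟩ : ∃ T : ℝ, T = 16 * Real.exp 1 ^ 4 * (2 * C) / c₀ ^ 2 + 1 := ⟨_, rfl⟩
  have hE1 : 1 ≤ Real.exp 1 := Real.one_le_exp (by norm_num)
  have hE0 : 0 < Real.exp 1 := Real.exp_pos 1
  have hT1 : 1 ≤ T := by
    rw [hT]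
    have : 0 ≤ 16 * Real.exp 1 ^ 4 * (2 * C) / c₀ ^ 2 := by positivity
    linarith
  have hh0 : 0 < h := by linarith
  have hC₀0 : 0 < C₀ := by linarith
  obtain ⟨B, hB⟩ : ∃ B : ℕ, (C1 + C2) * Real.exp 1 * (2 * h * T) ≤ B := exists_nat_ge _
  obtain ⟨V1, hV1⟩ : ∃ V : Finset (Qd (b * A) (m * A ^ 2)), V = (Icc (-J1) J1).image
    (fun j => ((η ^ j : (Qd (b * A) (m * A ^ 2))ˣ) : Qd (b * A) (m * A ^ 2)) * 1) := ⟨_, rfl⟩
  obtain ⟨V2, hV2⟩ : ∃ V : Finset (Qd (b * A) (m * A ^ 2)), V = (Icc (-J2) J2).image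
    (fun j => ((η ^ j : (Qd (b * A) (m * A ^ 2))ˣ) : Qd (b * A) (m * A ^ 2)) * u₀) := ⟨_, rfl⟩
  obtain ⟨n, hn⟩ : ∃ n : ℝ, n = ((Icc (-J1) J1).card : ℝ) + ((Icc (-J2) J2).card : ℝ) + 1 :=
    ⟨_, rfl⟩
  have hn0 : 0 < n := by rw [hn]; positivity
  refine ⟨V1 ∪ V2, B, c₀ ^ 2 / (2 * Real.exp 1 ^ 2 * (Real.exp 1 * C₀ ^ 2)) / 2 / n, ?_,
    by positivity, Real.exp 1 * C₀ ^ 2 * (|Yw| + |Y₁| + 4 * h * T), ?_⟩
  · have hgen : ∀ (v : Qd (b * A) (m * A ^ 2)), tp v → prim v → χ v.re = 1 → ∀ j : ℤ,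
        tp (((η ^ j : (Qd (b * A) (m * A ^ 2))ˣ) : Qd (b * A) (m * A ^ 2)) * v) ∧
        prim (((η ^ j : (Qd (b * A) (m * A ^ 2))ˣ) : Qd (b * A) (m * A ^ 2)) * v) ∧
        Int.gcd (((η ^ j : (Qd (b * A) (m * A ^ 2))ˣ) : Qd (b * A) (m * A ^ 2)) * v).re A = 1 := by
      intro v hv1 hv2 hv3 j
      refine ⟨(U.tp_zpow_mul j).2 hv1, (Pool.Agent.W78.GR.prim_zpow_mul j).2 hv2, ?_⟩
      apply gcd_of_chi hχ
      rw [chi_zpow hχ hdvd hη, hv3]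
    intro u hu
    rw [mem_union, hV1, hV2, mem_image, mem_image] at hu
    rcases hu with ⟨j, -, rfl⟩ | ⟨j, -, rfl⟩
    · exact hgen 1 htp1 hp1 hc1 j
    · exact hgen u₀ htu hpu hcu j
  intro X hX
  have hhT : 1 ≤ h * T := one_le_mul_of_one_le_of_one_le hh hT1
  have hM : 4 ≤ |Yw| + |Y₁| + 4 * h * T := by
    have := abs_nonneg Yw
    have := abs_nonneg Y₁
    linarith
  have hEC : 0 < Real.exp 1 * C₀ ^ 2 := by positivity
  have hX0 : 0 < X := lt_of_lt_of_le (mul_pos hEC (by linarith)) hX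
  -- the scale
  have hYw : Yw ≤ X / (Real.exp 1 * C₀) := by
    rw [le_div_iff₀ (by positivity)]
    have h4 : Yw * (Real.exp 1 * C₀) ≤ (|Yw| + |Y₁| + 4 * h * T) * (Real.exp 1 * C₀ ^ 2) := by
      have h5 : Yw ≤ |Yw| + |Y₁| + 4 * h * T := by
        have := le_abs_self Yw
        have := abs_nonneg Y₁
        linarith
      have h6 : Real.exp 1 * C₀ ≤ Real.exp 1 * C₀ ^ 2 :=
        mul_le_mul_of_nonneg_left (by nlinarith) hE0.le
      exact mul_le_mul h5 h6 (by positivity) (by linarith)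
    linarith
  obtain ⟨Y, hY1, hY2, hY3⟩ := hwin _ hYw
  have hYX : Real.exp 1 * Y ≤ X := by
    have h4 : C₀ * (X / (Real.exp 1 * C₀)) = X / Real.exp 1 := by
      field_simp
    rw [h4, le_div_iff₀ hE0] at hY2
    linarith
  have hXY : X / (Real.exp 1 * C₀ ^ 2) ≤ Y := by
    refine le_trans (le_of_eq ?_) hY1
    field_simp
  have hYM : |Yw| + |Y₁| + 4 * h * T ≤ Y := by
    refine le_trans ?_ hXY
    rw [le_div_iff₀ hEC]
    linarith
  have hY₁ : Y₁ ≤ Y := by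
    have := le_abs_self Y₁
    have := abs_nonneg Yw
    linarith
  have hY4 : 4 * h * T ≤ Y := by
    have := abs_nonneg Y₁
    have := abs_nonneg Yw
    linarith
  have hY0 : 0 < Y := by linarith
  obtain ⟨K, hK⟩ : ∃ K : ℕ, K = ⌊Y / h⌋₊ := ⟨_, rfl⟩
  have hYh : 4 * T ≤ Y / h := by
    rw [le_div_iff₀ hh0]; linarith
  have hK1 : (K : ℝ) ≤ Y / h := by rw [hK]; exact Nat.floor_le (by positivity)
  have hK2 : Y / h - 1 < K := by rw [hK]; exact Nat.sub_one_lt_floor _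
  have hK3 : Y / (2 * h) ≤ K := by
    have h4 : Y / (2 * h) = (Y / h) / 2 := by field_simp
    rw [h4]
    linarith
  have hK4 : 2 * T ≤ K := by linarith
  have hK0 : (0 : ℝ) < K := by linarith
  have hKn : 1 ≤ K := by exact_mod_cast hK0
  have hKY : (K : ℝ) ≤ Y := hK1.trans (div_le_self hY0.le hh)
  have hX1 : 1 ≤ Real.exp 1 * Y := by nlinarith
  have hTK : T / K ≤ 1 / 2 := by
    rw [div_le_div_iff₀ hK0 (by norm_num)]
    linarith
  have hTK0 : 0 ≤ T / K := by positivity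
  have hTK2 : Y * (T / K) ≤ 2 * h * T := by
    rw [mul_div_assoc', div_le_iff₀ hK0]
    rw [div_le_iff₀ (by positivity)] at hK3
    nlinarith
  -- the pairs
  obtain ⟨S, hS⟩ : ∃ S : ℝ, S = ∑ u ∈ V1 ∪ V2, ((NPR lam A χ η u B X).card : ℝ) := ⟨_, rfl⟩
  rw [← hS]
  have hS0 : 0 ≤ S := by
    rw [hS]
    exact sum_nonneg fun _ _ => Nat.cast_nonneg _
  have hN : ∀ (v : Qd (b * A) (m * A ^ 2)) (C' : ℝ) (J : ℤ), C' ≤ C1 + C2 →
      (∀ (B : ℕ) (X δ : ℝ), 1 ≤ X → 0 ≤ δ → δ ≤ 1 / 2 → C' * X * δ ≤ B →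
        APR lam A χ η v δ X ⊆ (Icc (-J) J).biUnion (fun j => NPR lam A χ η
          (((η ^ j : (Qd (b * A) (m * A ^ 2))ˣ) : Qd (b * A) (m * A ^ 2)) * v) B X)) →
      (∀ j ∈ Icc (-J) J, ((η ^ j : (Qd (b * A) (m * A ^ 2))ˣ) : Qd (b * A) (m * A ^ 2)) * v ∈
        V1 ∪ V2) →
      ((APR lam A χ η v (T / K) (Real.exp 1 * Y)).card : ℝ) ≤ ((Icc (-J) J).card : ℝ) * S := by
    intro v C' J hC' hv hj
    have h4 : C' * (Real.exp 1 * Y) * (T / K) ≤ B := by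
      refine le_trans ?_ hB
      calc C' * (Real.exp 1 * Y) * (T / K) = C' * (Real.exp 1 * (Y * (T / K))) := by ring
        _ ≤ (C1 + C2) * (Real.exp 1 * (Y * (T / K))) :=
            mul_le_mul_of_nonneg_right hC' (by positivity)
        _ = (C1 + C2) * Real.exp 1 * (Y * (T / K)) := by ring
        _ ≤ (C1 + C2) * Real.exp 1 * (2 * h * T) :=
            mul_le_mul_of_nonneg_left hTK2 (by positivity)
    have h5 := hv B (Real.exp 1 * Y) (T / K) hX1 hTK0 hTK h4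
    have h6 : ((APR lam A χ η v (T / K) (Real.exp 1 * Y)).card : ℝ) ≤
        ∑ j ∈ Icc (-J) J, ((NPR lam A χ η
          (((η ^ j : (Qd (b * A) (m * A ^ 2))ˣ) : Qd (b * A) (m * A ^ 2)) * v) B
            (Real.exp 1 * Y)).card : ℝ) := by
      exact_mod_cast (card_le_card h5).trans card_biUnion_le
    refine h6.trans ?_
    rw [← nsmul_eq_mul]
    refine sum_le_card_nsmul _ _ _ fun j hjm => ?_
    have h7 : ((NPR lam A χ η
          (((η ^ j : (Qd (b * A) (m * A ^ 2))ˣ) : Qd (b * A) (m * A ^ 2)) * v) B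
            (Real.exp 1 * Y)).card : ℝ) ≤ ((NPR lam A χ η
          (((η ^ j : (Qd (b * A) (m * A ^ 2))ˣ) : Qd (b * A) (m * A ^ 2)) * v) B
            X).card : ℝ) := by
      exact_mod_cast card_le_card (NPR_mono U _ B hYX)
    refine h7.trans ?_
    rw [hS]
    exact single_le_sum (f := fun u => ((NPR lam A χ η u B X).card : ℝ))
      (fun _ _ => Nat.cast_nonneg _) (hj j hjm)
  have hN1 := hN 1 C1 J1 (by linarith) hang1 (fun j hj => by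
    rw [mem_union, hV1]
    exact Or.inl (mem_image_of_mem _ hj))
  have hN2 := hN u₀ C2 J2 (by linarith) hang2 (fun j hj => by
    rw [mem_union, hV2]
    exact Or.inr (mem_image_of_mem _ hj))
  have hF1 := hfar (Real.exp 1 * Y) T K 1 hX1 hT1 hKn hK4 htp1
  have hF2 := hfar (Real.exp 1 * Y) T K u₀ hX1 hT1 hKn hK4 htu
  have hG := hmr Y hY₁
  rw [← hK] at hG
  have hG' : ∑ k ∈ (FK K).erase 0, ‖R.GG η (fun z => lam (nm z) * χ z.re ^ 2) Y k‖ ^ 2 +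
      ∑ k ∈ (FK K).erase 0, ‖R.GG η (fun z => lam (nm z) * χ z.re) Y k‖ ^ 2 ≤ c₀ ^ 2 / 4 :=
    hG.trans (by linarith)
  have hmain := htin χ hχ u₀ htu hgu hcu Y K hY0 hKn
  have hmain2 := (pow_le_pow_left₀ hc₀.le hY3 2).trans hmain
  obtain ⟨N₁, hN₁⟩ : ∃ N : ℝ, N = ((APR lam A χ η 1 (T / K) (Real.exp 1 * Y)).card : ℝ) :=
    ⟨_, rfl⟩
  obtain ⟨N₂, hN₂⟩ : ∃ N : ℝ, N = ((APR lam A χ η u₀ (T / K) (Real.exp 1 * Y)).card : ℝ) :=
    ⟨_, rfl⟩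
  have hN₁0 : 0 ≤ N₁ := by rw [hN₁]; positivity
  have hN₂0 : 0 ≤ N₂ := by rw [hN₂]; positivity
  rw [← hN₁] at hF1 hN1
  rw [← hN₂] at hF2 hN2
  have hfin := near_ineq (c₀ := c₀) (C := 2 * C) (N₁ := 2 * N₁) (N₂ := 2 * N₂)
    (F₁ := 2 * FSR lam A χ η 1 K (Real.exp 1 * Y))
    (F₂ := 2 * FSR lam A χ η u₀ K (Real.exp 1 * Y)) hc₀ (by positivity) hT hY0 hK0 hKY
    (by positivity) (by positivity) (by linarith) (by linarith) hG' (by linarith)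
  have hfin2 : c₀ ^ 2 * Y / (2 * Real.exp 1 ^ 2) / 2 ≤ n * S := by
    rw [hn]
    linarith
  have h5 : c₀ ^ 2 / (2 * Real.exp 1 ^ 2 * (Real.exp 1 * C₀ ^ 2)) / 2 / n * X =
      (c₀ ^ 2 * (X / (Real.exp 1 * C₀ ^ 2)) / (2 * Real.exp 1 ^ 2) / 2) / n := by
    field_simp
  rw [h5, div_le_iff₀ hn0, mul_comm S n]
  refine le_trans ?_ hfin2
  refine div_le_div_of_nonneg_right ?_ (by norm_num)
  refine div_le_div_of_nonneg_right ?_ (by positivity)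
  exact mul_le_mul_of_nonneg_left hXY (by positivity)

end Pool.Agent.H685.Q648
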