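import Pool.Agent.H648.Q.Defs3
import Pool.Graph.R_seed8.W78.GT.Basic
import Pool.Graph.R_seed8.W29.GT.Box
import Pool.Graph.R_seed8.W29.GT.Ve
import Pool.Graph.R_seed8.W571.GT.Rep

/-!
# Q648, U5: upper bound for the number of pairs `(d, d')`, `d, d' ≤ N`, with `d d' = f(x)`
-/

set_option autoImplicit false

namespace Pool.Agent.H685.Q648

open Finset
open Pool.Agent.W78.GT
open Pool.Agent.H648.Q (Fp)

/-- the number of all triples -/
lemma card_tri_le {t c : ℤ} (hns : ¬ IsSquare (t ^ 2 - 4 * c)) : ∃ C : ℝ, 0 < C ∧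
    ∀ X : ℝ, 1 ≤ X → ((tri t c X X).card : ℝ) ≤ C * X := by
  classical
  have hroot : S_ROOT t c := Pool.Agent.W29.GT.root_of (Pool.Agent.W571.GT.rep hns)
  obtain ⟨C₁, hC₁, h1⟩ := Pool.Agent.W29.GT.vet_of hroot
  obtain ⟨C₂, hC₂, h2⟩ := hroot
  refine ⟨C₁ * (1 + C₂), by positivity, fun X hX => ?_⟩
  have h3 := h1 1 X (rts t c X) one_pos le_rfl hX (Finset.Subset.refl _)
  have hfil : (tri t c X X).filter (fun e => vx e ∈ rts t c X ∨ vy e ∈ rts t c X)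
      = tri t c X X := by
    refine Finset.filter_true_of_mem (fun e he => Or.inl ?_)
    obtain ⟨ha, hb, -, -, hq, -⟩ := mem_tri.1 he
    rw [mem_rts]
    have hpos : (0 : ℤ) < e.1 := by exact_mod_cast ha
    refine ⟨ha, hb, ?_, Int.emod_nonneg _ hpos.ne', Int.emod_lt_of_pos _ hpos⟩
    show (e.1 : ℤ) ∣ Qp t c (e.2.1 % (e.1 : ℤ))
    have hd : (e.1 : ℤ) ∣ Qp t c e.2.1 := ⟨_, hq.symm⟩
    obtain ⟨k, hk⟩ : ∃ k : ℤ, e.2.1 % (e.1 : ℤ) = e.2.1 - e.1 * k :=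
      ⟨e.2.1 / e.1, by rw [Int.emod_def]⟩
    rw [hk]
    obtain ⟨m, hm⟩ := hd
    refine ⟨m + (-2 * e.2.1 * k + e.1 * k ^ 2 - t * k), ?_⟩
    unfold Qp at hm ⊢
    linear_combination hm
  rw [hfil] at h3
  have h4 := h2 X (by linarith)
  calc ((tri t c X X).card : ℝ) ≤ C₁ * (1 * X + ((rts t c X).card : ℝ) / 1) := h3
    _ ≤ C₁ * (1 * X + (C₂ * X) / 1) := by
        have : ((rts t c X).card : ℝ) / 1 ≤ (C₂ * X) / 1 := by
          rw [div_one, div_one]; exact h4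
        exact mul_le_mul_of_nonneg_left (by linarith) hC₁.le
    _ = C₁ * (1 + C₂) * X := by ring

open scoped Classical in
/-- the triple of a pair -/
noncomputable def tp (a b c : ℤ) (p : ℕ × ℕ) : Tr :=
  if h : ∃ x : ℕ, 1 ≤ x ∧ (p.1 : ℤ) * p.2 = Fp a b c x then
    (a.natAbs * p.1, if 0 ≤ 2 * (a * (h.choose : ℤ)) + b then a * (h.choose : ℤ)
      else -b - a * (h.choose : ℤ), p.2)
  else (a.natAbs * p.1, 0, p.2)

lemma tp_fst (a b c : ℤ) (p : ℕ × ℕ) : (tp a b c p).1 = a.natAbs * p.1 := by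
  unfold tp
  split_ifs <;> rfl

lemma tp_snd (a b c : ℤ) (p : ℕ × ℕ) : (tp a b c p).2.2 = p.2 := by
  unfold tp
  split_ifs <;> rfl

lemma tp_mid (a b c : ℤ) (p : ℕ × ℕ) (h : ∃ x : ℕ, 1 ≤ x ∧ (p.1 : ℤ) * p.2 = Fp a b c x) :
    a * ((p.1 : ℤ) * p.2) = Qp b (a * c) (tp a b c p).2.1 ∧ 0 ≤ 2 * (tp a b c p).2.1 + b := by
  have hx := h.choose_spec.2
  have hQ : a * ((p.1 : ℤ) * p.2) = Qp b (a * c) (a * (h.choose : ℤ)) := by
    have h2 : ∀ u y : ℤ, u = Fp a b c y → a * u = Qp b (a * c) (a * y) := by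
      intro u y hu
      rw [hu]
      unfold Fp Qp
      ring
    exact h2 _ _ hx
  unfold tp
  rw [dif_pos h]
  by_cases h0 : 0 ≤ 2 * (a * (h.choose : ℤ)) + b
  · simp only [h0, if_true]
    exact ⟨hQ, trivial⟩
  · simp only [h0, if_false]
    refine ⟨?_, by push Not at h0; linarith⟩
    rw [hQ]
    unfold Qp
    ring

/-- U5 -/
theorem upb_of {a b c : ℤ} (ha : 0 < a) (hns : ¬ IsSquare (b ^ 2 - 4 * (a * c))) :
    Pool.Agent.H648.Q3.S_UPB a b c := by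
  classical
  obtain ⟨C, hC, h⟩ := card_tri_le hns
  have ha1 : (1 : ℝ) ≤ a := by exact_mod_cast ha
  refine ⟨max 1 (C * a), le_max_left _ _, fun N => ?_⟩
  rcases Nat.eq_zero_or_pos N with hN | hN
  · subst hN
    simp
  have hN1 : (1 : ℝ) ≤ N := by exact_mod_cast hN
  have hX : (1 : ℝ) ≤ a * N := by nlinarith
  have h1 := h (a * N) hX
  have hcard : ((Icc 1 N ×ˢ Icc 1 N).filter (fun p : ℕ × ℕ =>
      ∃ x : ℕ, 1 ≤ x ∧ (p.1 : ℤ) * p.2 = Fp a b c x)).card ≤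
      (tri b (a * c) (a * N) (a * N)).card := by
    refine Finset.card_le_card_of_injOn (tp a b c) ?_ ?_
    · intro p hp
      rw [Finset.mem_coe, mem_filter, mem_product, mem_Icc, mem_Icc] at hp
      obtain ⟨⟨⟨p1, p2⟩, p3, p4⟩, hex⟩ := hp
      rw [Finset.mem_coe, mem_tri, tp_fst, tp_snd]
      obtain ⟨hm1, hm2⟩ := tp_mid a b c p hex
      have habs : 1 ≤ a.natAbs := by omega
      have habs' : ((a.natAbs : ℕ) : ℤ) = a := by omega
      have habsR : ((a.natAbs : ℕ) : ℝ) = a := by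
        have h5 : (((a.natAbs : ℕ) : ℤ) : ℝ) = (a : ℝ) := by rw [habs']
        rw [← h5, Int.cast_natCast]
      refine ⟨Nat.mul_pos habs p1, ?_, p3, ?_, ?_, hm2⟩
      · rw [Nat.cast_mul, habsR]
        have : (p.1 : ℝ) ≤ N := by exact_mod_cast p2
        nlinarith
      · have : (p.2 : ℝ) ≤ N := by exact_mod_cast p4
        nlinarith
      · rw [← hm1, Nat.cast_mul, habs']
        ring
    · intro p _ q _ hpq
      have e1 : (tp a b c p).1 = (tp a b c q).1 := by rw [hpq]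
      have e2 : (tp a b c p).2.2 = (tp a b c q).2.2 := by rw [hpq]
      rw [tp_fst, tp_fst] at e1
      rw [tp_snd, tp_snd] at e2
      have habs : 0 < a.natAbs := by omega
      exact Prod.ext (Nat.eq_of_mul_eq_mul_left habs e1) e2
  have hcard' : (((Icc 1 N ×ˢ Icc 1 N).filter (fun p : ℕ × ℕ =>
      ∃ x : ℕ, 1 ≤ x ∧ (p.1 : ℤ) * p.2 = Fp a b c x)).card : ℝ) ≤
      ((tri b (a * c) (a * N) (a * N)).card : ℝ) := by exact_mod_cast hcard
  calc (((Icc 1 N ×ˢ Icc 1 N).filter (fun p : ℕ × ℕ =>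
      ∃ x : ℕ, 1 ≤ x ∧ (p.1 : ℤ) * p.2 = Fp a b c x)).card : ℝ)
      ≤ ((tri b (a * c) (a * N) (a * N)).card : ℝ) := hcard'
    _ ≤ C * (a * N) := h1
    _ = C * a * N := by ring
    _ ≤ max 1 (C * a) * N := mul_le_mul_of_nonneg_right (le_max_right _ _) (by linarith)

end Pool.Agent.H685.Q648
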