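import Pool.Agent.H648.Q.Defs2
import Pool.Agent.H685.Q648.Win
import Pool.Graph.R_seed8.W412.GR.A0
import Pool.Graph.R_seed8.W398.GR.Lat
import Pool.Graph.R_seed8.W78.GR.SC

/-!
# Project Q648, job WINR (helper685): a scale at which the restricted main term is not small,
real case
-/

set_option autoImplicit false
set_option linter.unusedVariables false

namespace Pool.Agent.H685.Q648

open Finset
open Pool.Agent.H376R2.MR (w)
open Pool.Agent.W78.GA (Qd nm prim bg dt ip bg_nonneg prim_ne_zero)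
open Pool.Agent.W78.GR (Un tp fd ang pball s1 s2 s1_sub_s2 sd_pos nm_tp nm_posR rg)
open Pool.Agent.H648.Q2

variable {t c : ℤ}

theorem s1_sh (i : ℤ) (z : Qd t c) : s1 (sh i z) = s1 z + i * z.im := by
  show (((z.re + i * z.im : ℤ) : ℝ)) + t * (z.im : ℝ) / 2 +
    (z.im : ℝ) * Real.sqrt (t ^ 2 - 4 * c) / 2 =
    (z.re : ℝ) + t * (z.im : ℝ) / 2 + (z.im : ℝ) * Real.sqrt (t ^ 2 - 4 * c) / 2 + i * z.im
  push_cast
  ring

theorem s2_sh (i : ℤ) (z : Qd t c) : s2 (sh i z) = s2 z + i * z.im := by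
  show (((z.re + i * z.im : ℤ) : ℝ)) + t * (z.im : ℝ) / 2 -
    (z.im : ℝ) * Real.sqrt (t ^ 2 - 4 * c) / 2 =
    (z.re : ℝ) + t * (z.im : ℝ) / 2 - (z.im : ℝ) * Real.sqrt (t ^ 2 - 4 * c) / 2 + i * z.im
  push_cast
  ring

theorem fd_facts {η : (Qd t c)ˣ} (U : Un t c η) {z : Qd t c} (hz : fd η z) :
    0 < s1 z ∧ 0 < s2 z ∧ s2 z ≤ s1 z ∧ s1 z ≤ s1 (η : Qd t c) ^ 2 * s2 z ∧ (0 : ℝ) ≤ z.im ∧
      (z.im : ℝ) ≤ s1 z := by
  obtain ⟨⟨h1, h2⟩, h3, h4⟩ := hz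
  have hrg : 0 < rg η := U.rg_pos
  have hpi := Real.pi_pos
  have hH : 0 < s1 (η : Qd t c) := lt_trans one_pos U.s1_gt
  unfold ang at h3 h4
  have h5 : 0 ≤ Real.log (s1 z / s2 z) := by
    by_contra hcon
    push Not at hcon
    have : Real.pi / rg η * Real.log (s1 z / s2 z) < 0 := mul_neg_of_pos_of_neg (by positivity) hcon
    linarith
  have h6 : 1 ≤ s1 z / s2 z := by
    rw [← Real.log_nonneg_iff (div_pos h1 h2)]
    exact h5
  have h7 : s2 z ≤ s1 z := (one_le_div h2).1 h6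
  have h8 : Real.log (s1 z / s2 z) < 2 * rg η := by
    have h9 : Real.pi / rg η * Real.log (s1 z / s2 z) = Real.pi * (Real.log (s1 z / s2 z) / rg η) := by
      ring
    rw [h9] at h4
    have h10 : Real.log (s1 z / s2 z) / rg η < 2 := by
      by_contra hcon
      push Not at hcon
      nlinarith
    rwa [div_lt_iff₀ hrg] at h10
  have h9 : s1 z / s2 z < s1 (η : Qd t c) ^ 2 := by
    have h10 : (2 : ℝ) * rg η = Real.log (s1 (η : Qd t c) ^ 2) := by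
      rw [Real.log_pow]
      rfl
    rw [h10] at h8
    exact (Real.log_lt_log_iff (div_pos h1 h2) (by positivity)).1 h8
  rw [div_lt_iff₀ h2] at h9
  have h10 := s1_sub_s2 z
  have h11 := sd_pos U.disc
  have h12 : (0 : ℝ) ≤ z.im := by
    by_contra hcon
    push Not at hcon
    have := mul_neg_of_neg_of_pos hcon h11
    linarith
  have h13 : 1 ≤ Real.sqrt ((t : ℝ) ^ 2 - 4 * c) := by
    rw [Real.one_le_sqrt]
    have h14 : (1 : ℤ) ≤ t ^ 2 - 4 * c := by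
      have := U.disc
      linarith
    exact_mod_cast h14
  refine ⟨h1, h2, h7, h9.le, h12, ?_⟩
  have h14 : (z.im : ℝ) ≤ z.im * Real.sqrt ((t : ℝ) ^ 2 - 4 * c) := le_mul_of_one_le_right h12 h13
  linarith

theorem fd_sh {η : (Qd t c)ˣ} (U : Un t c η) {z : Qd t c} (hz : fd η z) {i : ℤ} (hi : 0 ≤ i) :
    fd η (sh i z) := by
  obtain ⟨h1, h2, h3, h4, h5, h6⟩ := fd_facts U hz
  have hi' : (0 : ℝ) ≤ i := by exact_mod_cast hi
  have hk : 0 ≤ (i : ℝ) * z.im := mul_nonneg hi' h5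
  have e1 : 0 < s1 (sh i z) := by rw [s1_sh]; linarith
  have e2 : 0 < s2 (sh i z) := by rw [s2_sh]; linarith
  have hq1 : 1 ≤ s1 (sh i z) / s2 (sh i z) := by
    rw [one_le_div e2, s1_sh, s2_sh]
    linarith
  have hq2 : s1 (sh i z) / s2 (sh i z) ≤ s1 z / s2 z := by
    rw [div_le_div_iff₀ e2 h2, s1_sh, s2_sh]
    nlinarith
  have hrg : 0 < rg η := U.rg_pos
  have hc : 0 ≤ Real.pi / rg η := by positivity
  refine ⟨⟨e1, e2⟩, ?_, ?_⟩
  · unfold ang
    exact mul_nonneg hc (Real.log_nonneg hq1)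
  · refine lt_of_le_of_lt ?_ hz.2.2
    unfold ang
    exact mul_le_mul_of_nonneg_left (Real.log_le_log (div_pos e1 e2) hq2) hc

theorem nm_sh_le {η : (Qd t c)ˣ} (U : Un t c η) {z : Qd t c} (hz : fd η z) {i : ℤ} (hi : 0 ≤ i)
    {A : ℕ} (hiA : i ≤ A) :
    (nm z : ℝ) ≤ nm (sh i z) ∧
      (nm (sh i z) : ℝ) ≤ ((1 + A) * (1 + A * s1 (η : Qd t c) ^ 2)) * nm z := by
  obtain ⟨h1, h2, h3, h4, h5, h6⟩ := fd_facts U hz
  have hz' := fd_sh U hz hi
  have hi' : (0 : ℝ) ≤ i := by exact_mod_cast hi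
  have hiA' : (i : ℝ) ≤ A := by exact_mod_cast hiA
  have hA0 : (0 : ℝ) ≤ A := Nat.cast_nonneg _
  have hk : 0 ≤ (i : ℝ) * z.im := mul_nonneg hi' h5
  have hk1 : (i : ℝ) * z.im ≤ A * s1 z := mul_le_mul hiA' h6 h5 hA0
  rw [nm_tp U.disc hz.1, nm_tp U.disc hz'.1, s1_sh, s2_sh]
  constructor
  · exact mul_le_mul (by linarith) (by linarith) h2.le (by linarith)
  · have e1 : s1 z + i * z.im ≤ (1 + A) * s1 z := by linarith
    have e2 : s2 z + i * z.im ≤ (1 + A * s1 (η : Qd t c) ^ 2) * s2 z := by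
      have e3 : (A : ℝ) * s1 z ≤ A * (s1 (η : Qd t c) ^ 2 * s2 z) :=
        mul_le_mul_of_nonneg_left h4 hA0
      nlinarith
    calc (s1 z + i * z.im) * (s2 z + i * z.im) ≤
        ((1 + A) * s1 z) * ((1 + A * s1 (η : Qd t c) ^ 2) * s2 z) :=
          mul_le_mul e1 e2 (by linarith) (by positivity)
      _ = ((1 + A) * (1 + A * s1 (η : Qd t c) ^ 2)) * (s1 z * s2 z) := by ring

/-- the windows at the scales `Y e^j` see the sheared element -/
theorem pt_real (hd : 4 * c < t ^ 2) {C1 : ℝ} (hC1 : 1 ≤ C1) {z z' : Qd t c} (hz : tp z)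
    (hz' : tp z') (h1 : (nm z' : ℝ) ≤ C1 * nm z) (h2 : (nm z : ℝ) ≤ C1 * nm z') {J : ℕ}
    (hJ : 1 + Real.log C1 ≤ J) {Y : ℝ} (hY : 0 < Y) :
    bg Y z ≤ 2 * C1 * (Real.exp 1 * Real.exp 1) *
      ∑ j ∈ Icc (-(J : ℤ)) J, bg (Y * Real.exp j) z' := by
  have he := Real.exp_pos 1
  by_cases hb : bg Y z = 0
  · rw [hb]
    have h3 : 0 ≤ ∑ j ∈ Icc (-(J : ℤ)) J, bg (Y * Real.exp j) z' :=
      sum_nonneg fun j _ => bg_nonneg _ _
    positivity
  obtain ⟨hl, hu⟩ := Pool.Agent.W78.GR.bg_ne hd hY hz hb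
  have hN := nm_posR hd hz
  have hN' : (0 : ℝ) < nm z' := nm_posR hd hz'
  have hC0 : 0 < C1 := by linarith
  obtain ⟨s, hs⟩ : ∃ s : ℝ, s = Real.log (nm z') - Real.log Y := ⟨_, rfl⟩
  have hs1 : s ≤ 1 + Real.log C1 := by
    have h3 : Real.log (nm z') ≤ Real.log (C1 * (Real.exp 1 * Y)) :=
      Real.log_le_log hN' (h1.trans (mul_le_mul_of_nonneg_left hu hC0.le))
    rw [Real.log_mul hC0.ne' (mul_pos he hY).ne', Real.log_mul he.ne' hY.ne', Real.log_exp] at h3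
    rw [hs]
    linarith
  have hs2 : -(1 + Real.log C1) ≤ s := by
    have h3 : Real.log (Y / Real.exp 1) ≤ Real.log (C1 * nm z') :=
      Real.log_le_log (div_pos hY he) (hl.trans h2)
    rw [Real.log_mul hC0.ne' hN'.ne', Real.log_div hY.ne' he.ne', Real.log_exp] at h3
    rw [hs]
    linarith
  have hr : |s - round s| ≤ 1 / 2 := abs_sub_round s
  have hmem : round s ∈ Icc (-(J : ℤ)) J := by
    rw [abs_le] at hr
    rw [mem_Icc]
    constructor
    · have h3 : (-(J : ℤ) - 1 : ℝ) < (round s : ℤ) := by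
        push_cast
        linarith [hr.2]
      have h4 : -(J : ℤ) - 1 < round s := by exact_mod_cast h3
      omega
    · have h3 : ((round s : ℤ) : ℝ) < (J : ℤ) + 1 := by
        push_cast
        linarith [hr.1]
      have h4 : round s < (J : ℤ) + 1 := by exact_mod_cast h3
      omega
  have h5 : bg (Y * Real.exp (round s : ℤ)) z' ≤
      ∑ j ∈ Icc (-(J : ℤ)) J, bg (Y * Real.exp j) z' :=
    single_le_sum (f := fun j : ℤ => bg (Y * Real.exp j) z') (fun j _ => bg_nonneg _ _) hmem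
  have h6 : 1 / 2 / (nm z' : ℝ) ≤ bg (Y * Real.exp (round s : ℤ)) z' := by
    unfold bg
    rw [Real.log_mul hY.ne' (Real.exp_pos _).ne', Real.log_exp, ← sub_sub, ← hs]
    exact div_le_div_of_nonneg_right (w_half hr) hN'.le
  have h7 := Pool.Agent.W78.GR.bg_le' hd hY hz
  have h8 : (nm z' : ℝ) ≤ C1 * (Real.exp 1 * Y) :=
    h1.trans (mul_le_mul_of_nonneg_left hu hC0.le)
  have h9 : Real.exp 1 / Y ≤ 2 * C1 * (Real.exp 1 * Real.exp 1) * (1 / 2 / (nm z' : ℝ)) := by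
    rw [div_le_iff₀ hY]
    have h10 : 2 * C1 * (Real.exp 1 * Real.exp 1) * (1 / 2 / (nm z' : ℝ)) * Y =
        Real.exp 1 * ((C1 * (Real.exp 1 * Y)) / (nm z' : ℝ)) := by
      field_simp
    rw [h10]
    have h11 : 1 ≤ (C1 * (Real.exp 1 * Y)) / (nm z' : ℝ) := (one_le_div hN').2 h8
    nlinarith
  refine h7.trans (h9.trans ?_)
  exact mul_le_mul_of_nonneg_left (h6.trans h5) (by positivity)

/-- NR0 -/
theorem winr {A : ℕ} {η : (Qd t c)ˣ} (U : Un t c η) (hA : 1 ≤ A) : S_WINR A η := by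
  classical
  obtain ⟨c1, hc1, Y1, hAY⟩ := Pool.Agent.W412.GR.a0_of U (Pool.Agent.W398.GR.lat U)
  have hd := U.disc
  obtain ⟨C1, hC1⟩ : ∃ C1 : ℝ, C1 = (1 + A) * (1 + A * s1 (η : Qd t c) ^ 2) := ⟨_, rfl⟩
  have hA0 : (0 : ℝ) ≤ A := Nat.cast_nonneg _
  have hC11 : 1 ≤ C1 := by
    rw [hC1]
    have h1 : (0 : ℝ) ≤ A * s1 (η : Qd t c) ^ 2 := by positivity
    nlinarith
  obtain ⟨J, hJ⟩ : ∃ J : ℕ, 1 + Real.log C1 ≤ J := exists_nat_ge _
  obtain ⟨M, hM⟩ : ∃ M : ℝ, M = 2 * C1 * (Real.exp 1 * Real.exp 1) := ⟨_, rfl⟩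
  have hM0 : 0 < M := by rw [hM]; positivity
  have hJ1 : (0 : ℝ) < 2 * J + 1 := by positivity
  have he1 : (0 : ℝ) < A + 1 := by positivity
  refine ⟨c1 / ((A + 1) * M * (2 * J + 1)), by positivity, Real.exp J,
    Real.one_le_exp (by positivity), max Y1 1, ?_⟩
  intro Y hY
  have hY0 : 0 < Y := lt_of_lt_of_le one_pos ((le_max_right _ _).trans hY)
  replace hAY := hAY Y ((le_max_left _ _).trans hY)
  obtain ⟨S, hS⟩ : ∃ S : ℕ → Finset (Qd t c), S = fun i : ℕ =>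
    (pball η (Real.exp 1 * Y)).filter (fun z => Int.gcd (z.re + i * z.im) A = 1) := ⟨_, rfl⟩
  have hsum : ∑ z ∈ pball η (Real.exp 1 * Y), bg Y z ≤
      ∑ i ∈ range (A + 1), ∑ z ∈ S i, bg Y z := by
    have h1 : pball η (Real.exp 1 * Y) ⊆ (range (A + 1)).biUnion S := by
      intro z hz
      have hp : Int.gcd z.re z.im = 1 := (U.mem_pball.1 hz).2.1
      obtain ⟨i, hi, hi2⟩ := exists_cop hp hA
      rw [mem_biUnion]
      refine ⟨i, hi, ?_⟩
      rw [hS]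
      exact mem_filter.2 ⟨hz, hi2⟩
    refine (sum_le_sum_of_subset_of_nonneg h1 fun z _ _ => bg_nonneg _ _).trans ?_
    clear h1
    generalize range (A + 1) = r
    induction r using Finset.induction_on with
    | empty => simp
    | insert a r ha ih =>
      rw [Finset.biUnion_insert, Finset.sum_insert ha]
      have h1 := Finset.sum_union_inter (s₁ := S a) (s₂ := r.biUnion S) (f := fun z => bg Y z)
      have h2 : 0 ≤ ∑ z ∈ S a ∩ r.biUnion S, bg Y z := Finset.sum_nonneg fun z _ => bg_nonneg _ _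
      linarith
  obtain ⟨i, hi, hi2⟩ : ∃ i ∈ range (A + 1), c1 / (A + 1) ≤ ∑ z ∈ S i, bg Y z := by
    by_contra hcon
    push Not at hcon
    have h1 : ∑ i ∈ range (A + 1), ∑ z ∈ S i, bg Y z < ∑ i ∈ range (A + 1), c1 / (A + 1) :=
      sum_lt_sum_of_nonempty ⟨0, by simp⟩ hcon
    rw [sum_const, card_range, nsmul_eq_mul] at h1
    push_cast at h1
    rw [mul_div_cancel₀ _ he1.ne'] at h1
    linarith
  rw [mem_range, Nat.lt_succ_iff] at hi
  have hi0 : (0 : ℤ) ≤ i := Int.natCast_nonneg i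
  have hiA : (i : ℤ) ≤ A := by exact_mod_cast hi
  have hSz : ∀ z ∈ S i, fd η z ∧ prim z ∧ Int.gcd (z.re + i * z.im) A = 1 := by
    intro z hz
    rw [hS] at hz
    obtain ⟨h1, h2⟩ := mem_filter.1 hz
    obtain ⟨h3, h4, -⟩ := U.mem_pball.1 h1
    exact ⟨h3, h4, h2⟩
  have hpt : ∀ z ∈ S i, bg Y z ≤ M * ∑ j ∈ Icc (-(J : ℤ)) J, bg (Y * Real.exp j) (sh (i : ℤ) z) := by
    intro z hz
    obtain ⟨h1, h2, h3⟩ := hSz z hz
    obtain ⟨h4, h5⟩ := nm_sh_le U h1 hi0 hiA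
    rw [hM]
    refine pt_real hd hC11 h1.1 (fd_sh U h1 hi0).1 ?_ ?_ hJ hY0
    · rw [hC1]
      exact h5
    · refine h4.trans ?_
      exact le_mul_of_one_le_left (Nat.cast_nonneg _) hC11
  have hj : ∀ j : ℤ, ∑ z ∈ S i, bg (Y * Real.exp j) (sh (i : ℤ) z) ≤
      ∑ z ∈ R.UR η A (Real.exp 1 * (Y * Real.exp j)), bg (Y * Real.exp j) z := by
    intro j
    have hYj : 0 < Y * Real.exp j := mul_pos hY0 (Real.exp_pos _)
    rw [← sum_image (f := fun z => bg (Y * Real.exp j) z) (s := S i) (g := sh (i : ℤ))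
      (fun z _ z' _ h => sh_inj _ h), ← sum_filter_ne_zero]
    refine sum_le_sum_of_subset_of_nonneg ?_ fun z _ _ => bg_nonneg _ _
    intro z' hz'
    obtain ⟨h1, h2⟩ := mem_filter.1 hz'
    obtain ⟨z, hz, rfl⟩ := mem_image.1 h1
    obtain ⟨h0, h3, h4⟩ := hSz z hz
    have h5 : prim (sh (i : ℤ) z) := prim_sh h3
    have h6 : fd η (sh (i : ℤ) z) := fd_sh U h0 hi0
    unfold R.UR
    rw [mem_filter, U.mem_pball]
    exact ⟨⟨h6, h5, (Pool.Agent.W78.GR.bg_ne hd hYj h6.1 h2).2⟩, h4⟩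
  have htot : c1 / (A + 1) ≤ M * ∑ j ∈ Icc (-(J : ℤ)) J,
      ∑ z ∈ R.UR η A (Real.exp 1 * (Y * Real.exp j)), bg (Y * Real.exp j) z := by
    refine hi2.trans ((sum_le_sum hpt).trans ?_)
    rw [← mul_sum, sum_comm]
    exact mul_le_mul_of_nonneg_left (sum_le_sum fun j _ => hj j) hM0.le
  obtain ⟨j, hjm, hj2⟩ : ∃ j ∈ Icc (-(J : ℤ)) J, c1 / ((A + 1) * M * (2 * J + 1)) ≤
      ∑ z ∈ R.UR η A (Real.exp 1 * (Y * Real.exp j)), bg (Y * Real.exp j) z := by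
    by_contra hcon
    push Not at hcon
    have h1 := sum_lt_sum_of_nonempty (s := Icc (-(J : ℤ)) J) ⟨0, by simp⟩ hcon
    rw [sum_const, Int.card_Icc, nsmul_eq_mul] at h1
    have h2 : (((J : ℤ) + 1 - -(J : ℤ)).toNat : ℝ) = 2 * J + 1 := by
      have h3 : ((J : ℤ) + 1 - -(J : ℤ)).toNat = 2 * J + 1 := by omega
      rw [h3]
      push_cast
      ring
    rw [h2] at h1
    have h3 := mul_lt_mul_of_pos_left h1 hM0
    have h4 : M * ((2 * (J : ℝ) + 1) * (c1 / ((A + 1) * M * (2 * J + 1)))) = c1 / (A + 1) := by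
      field_simp
    rw [h4] at h3
    linarith
  rw [mem_Icc] at hjm
  have hjR1 : (j : ℝ) ≤ J := by exact_mod_cast hjm.2
  have hjR2 : -(J : ℝ) ≤ j := by exact_mod_cast hjm.1
  refine ⟨Y * Real.exp j, ?_, ?_, hj2⟩
  · rw [div_le_iff₀ (Real.exp_pos _), mul_assoc, ← Real.exp_add]
    have h1 : (1 : ℝ) ≤ Real.exp (j + J) := Real.one_le_exp (by linarith)
    nlinarith
  · rw [mul_comm]
    exact mul_le_mul_of_nonneg_right (Real.exp_le_exp.2 hjR1) hY0.le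

end Pool.Agent.H685.Q648
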